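import Pool.Agent.LU.End
import Pool.Agent.V8.End.All
import Pool.Agent.H74.V8.ConeB

/-!
# LU10: the exact dimension with points of multiplicity `d`
-/

set_option autoImplicit false

namespace Pool.Agent.LU

open Finset MvPolynomial Pool.Agent.H18.Fat Pool.Agent.H18.Ex Pool.Agent.H21.NX Pool.Agent.H21.HD
  Pool.Agent.H74.V8C

private theorem Cones_card {n : ℕ} (i : Fin (n + 1)) (P : Fin (n + 1) → Prop) [DecidablePred P] :
    (univ.filter P).card = (if P i then 1 else 0) + (univ.filter fun j => P (i.succAbove j)).card := by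
  rw [Finset.card_filter, Finset.card_filter, Fin.sum_univ_succAbove _ i]

/-- Points of multiplicity `d` lower `r`, the upper bound.  `Q r n q`: a condition on `r`, the number
`n` of points with `(d + 1) / 2 < m_i < d` and the number `q` of points with `2 m_i = d + 1`. -/
theorem upper_gen (d : ℕ) (Q : ℕ → ℕ → ℕ → Prop)
    (h : ∀ (r k : ℕ) (m : Fin k → ℕ), (∀ i, 1 ≤ m i ∧ m i ≤ d) →
      (univ.filter fun i => d + 1 < 2 * m i ∧ m i = d).card = 0 →
      Q r (univ.filter fun i => d + 1 < 2 * m i ∧ m i < d).card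
        (univ.filter fun i => 2 * m i = d + 1).card →
      (gdim r d m : ℤ) ≤ max (fro r (fun i => d + 1 - m i) univ d) 0) (c : ℕ) :
    ∀ r, c ≤ r → ∀ (k : ℕ) (m : Fin k → ℕ), (∀ i, 1 ≤ m i ∧ m i ≤ d) →
      (univ.filter fun i => d + 1 < 2 * m i ∧ m i = d).card = c →
      Q (r - c) (univ.filter fun i => d + 1 < 2 * m i ∧ m i < d).card
        (univ.filter fun i => 2 * m i = d + 1).card →
      (gdim r d m : ℤ) ≤ max (fro r (fun i => d + 1 - m i) univ d) 0 := by
  classical
  induction c with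
  | zero =>
    intro r _ k m hm hC hQ
    exact h r k m hm hC hQ
  | succ c ih =>
    intro r hr k m hm hC hQ
    obtain ⟨i, hi⟩ : (univ.filter fun i => d + 1 < 2 * m i ∧ m i = d).Nonempty := by
      rw [← card_pos]
      omega
    rw [mem_filter] at hi
    obtain ⟨-, hi1, hi2⟩ := hi
    obtain ⟨n, rfl⟩ : ∃ n, k = n + 1 := by
      rcases k with _ | n
      · exact i.elim0
      · exact ⟨n, rfl⟩
    obtain ⟨s, rfl⟩ : ∃ s, r = s + 1 := ⟨r - 1, by omega⟩
    rw [Cones_card i (fun i => d + 1 < 2 * m i ∧ m i < d), if_neg (by omega), zero_add,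
      Cones_card i (fun i => 2 * m i = d + 1), if_neg (by omega), zero_add,
      Nat.add_sub_add_right] at hQ
    rw [Cones_card i, if_pos ⟨hi1, hi2⟩] at hC
    have h1 := ih s (by omega) n (fun j => m (i.succAbove j)) (fun j => hm _) (by omega) hQ
    let e : Fin (n + 1) ≃ Fin n ⊕ Unit := (finSuccEquiv' i).trans (Equiv.optionEquivSumPUnit (Fin n))
    have h2 := gdim_comp_equiv (s + 1) d e
      (Sum.elim (fun j => m (i.succAbove j)) fun _ : Unit => d)
    have h3 : (fun j => Sum.elim (fun j => m (i.succAbove j)) (fun _ : Unit => d) (e j)) = m := by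
      funext j
      by_cases hj : j = i
      · rw [hj]
        simp [e, hi2]
      · obtain ⟨y, rfl⟩ := Fin.exists_succAbove_eq hj
        simp [e]
    rw [h3] at h2
    have h4 := gdim_cone s d fun j => m (i.succAbove j)
    have h5 : fro (s + 1) (fun i => d + 1 - m i) univ d =
        fro s (fun j => d + 1 - m (i.succAbove j)) univ d := by
      rw [Fin.univ_succAbove n i, Finset.cons_eq_insert,
        fro_cone s (fun i => d + 1 - m i) (univ.map i.succAboveEmb) i (by simp) (by
          show d + 1 - m i = 1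
          omega) d, Pool.Agent.H74.V8C.fro_map]
      rfl
    rw [h5, h2]
    have h6 : (gdim (s + 1) d (Sum.elim (fun j => m (i.succAbove j)) fun _ : Unit => d) : ℤ) ≤
        gdim s d fun j => m (i.succAbove j) := by exact_mod_cast h4
    exact h6.trans h1

/-- The exact dimension.  Let `c` of the large points (`2 m_i > d + 1`) have multiplicity `d`.  The
number of the other large points is at most `K`, or at most `δ (r - c)` if `d` is even or if the points
with `2 m_i = d + 1` carry at most `1 - η` of the conditions. -/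
theorem exact_all (d K : ℕ) (η : ℝ) (hη : 0 < η) : ∃ δ : ℝ, 0 < δ ∧ ∃ r₀ : ℕ, ∀ (r k : ℕ)
    (m : Fin k → ℕ) (c : ℕ), (∀ i, 1 ≤ m i ∧ m i ≤ d) →
    (univ.filter fun i => d + 1 < 2 * m i ∧ m i = d).card = c → c + r₀ ≤ r →
    ((univ.filter fun i => d + 1 < 2 * m i ∧ m i < d).card ≤ K ∨
      ((((univ.filter fun i => d + 1 < 2 * m i ∧ m i < d).card : ℕ) : ℝ) ≤ δ * ((r - c : ℕ) : ℝ) ∧
        ((((univ.filter fun i => 2 * m i = d + 1).card * ell (r - c) ((d + 1) / 2) : ℕ) : ℝ) ≤
          (1 - η) * (ell (r - c) (d + 1) : ℝ) ∨ d % 2 = 0))) →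
    ForGeneralPoints r k fun p => (Module.finrank ℂ (fatForms r d p m) : ℤ) =
      max (fro r (fun i => d + 1 - m i) univ d) 0 := by
  classical
  obtain ⟨r₁, h₁⟩ := Pool.Agent.V8.exact_dim d K
  obtain ⟨δ, hδ, hδ1, r₂, h₂⟩ : ∃ δ : ℝ, 0 < δ ∧ δ ≤ 1 ∧ ∃ r₀ : ℕ, ∀ r, r₀ ≤ r →
      ∀ (k : ℕ) (m : Fin k → ℕ), (∀ i, 1 ≤ m i ∧ m i ≤ d) →
      (univ.filter fun i => d + 1 < 2 * m i ∧ m i = d).card = 0 →
      (((univ.filter fun i => d + 1 < 2 * m i ∧ m i < d).card : ℕ) : ℝ) ≤ δ * r →
      ((((univ.filter fun i => 2 * m i = d + 1).card * ell r ((d + 1) / 2) : ℕ) : ℝ) ≤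
        (1 - η) * (ell r (d + 1) : ℝ) ∨ d % 2 = 0) →
      ForGeneralPoints r k fun p => (Module.finrank ℂ (fatForms r d p m) : ℤ) =
        max (fro r (fun i => d + 1 - m i) univ d) 0 := by
    rcases Nat.lt_or_ge d 2 with hd | hd
    · obtain ⟨r₂, h₂⟩ := Pool.Agent.V8.exact_dim d 0
      refine ⟨1, one_pos, le_rfl, r₂, fun r hr k m hm _ _ _ => h₂ r hr k m hm ?_⟩
      rw [Nat.le_zero, card_eq_zero, filter_eq_empty_iff]
      intro i _
      have := hm i
      omega
    · obtain ⟨δ, hδ, r₂, h₂⟩ := exact_lin d hd η hη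
      refine ⟨min δ 1, lt_min hδ one_pos, min_le_right _ _, r₂, fun r hr k m hm hC hN hq => ?_⟩
      rw [card_eq_zero, filter_eq_empty_iff] at hC
      have h3 : ∀ i, 1 ≤ m i ∧ m i + 1 ≤ d := by
        intro i
        have h4 := hm i
        have h5 := hC (mem_univ i)
        omega
      refine h₂ r hr k m h3 ?_ hq
      have h6 : (univ.filter fun i => d + 1 < 2 * m i) =
          univ.filter fun i => d + 1 < 2 * m i ∧ m i < d := by
        refine filter_congr fun i _ => ?_
        have := h3 i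
        omega
      rw [h6]
      exact hN.trans (mul_le_mul_of_nonneg_right (min_le_left _ _) (Nat.cast_nonneg _))
  refine ⟨δ, hδ, r₁ + r₂ + K + 1, fun r k m c hm hC hr hcase => ?_⟩
  have hup := upper_gen d (fun r n q => r₁ + r₂ ≤ r ∧ (n ≤ K ∨ ((n : ℝ) ≤ δ * (r : ℝ) ∧
      (((q * ell r ((d + 1) / 2) : ℕ) : ℝ) ≤ (1 - η) * (ell r (d + 1) : ℝ) ∨ d % 2 = 0))))
    (fun r k m hm hC hQ => by
      have hg : Gen r (Fin k) fun p => (Module.finrank ℂ (fatForms r d p m) : ℤ) =
          max (fro r (fun i => d + 1 - m i) univ d) 0 := by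
        rcases hQ with ⟨h3, h4 | ⟨h4, h5⟩⟩
        · refine h₁ r (by omega) k m hm ?_
          refine le_trans (card_le_card fun i hi => ?_) h4
          rw [card_eq_zero, filter_eq_empty_iff] at hC
          rw [mem_filter] at hi ⊢
          have h5 := hC (mem_univ i)
          have h6 := hm i
          have h7 := hi.2
          exact ⟨hi.1, hi.2, by omega⟩
        · exact h₂ r (by omega) k m hm hC h4 h5
      obtain ⟨p, hp1, hp2⟩ := (hg.and (gen_gdim r d m)).exists
      rw [← hp2, hp1]) c r (by omega) k m hm hC ⟨by omega, hcase⟩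
  obtain ⟨I, hI⟩ : ∃ I : Finset (Fin k), I = univ.filter fun i => d + 1 < 2 * m i := ⟨_, rfl⟩
  have hnI : ∀ i, i ∉ I → 2 * m i ≤ d + 1 := by
    intro i hi
    rw [hI, mem_filter, not_and, not_lt] at hi
    exact hi (mem_univ i)
  have hIc : I.card ≤ r := by
    have h2 : I ⊆ (univ.filter fun i => d + 1 < 2 * m i ∧ m i < d) ∪
        (univ.filter fun i => d + 1 < 2 * m i ∧ m i = d) := by
      intro i hi
      rw [hI, mem_filter] at hi
      rw [mem_union, mem_filter, mem_filter]
      rcases Nat.lt_or_ge (m i) d with h3 | h3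
      · exact Or.inl ⟨mem_univ _, hi.2, h3⟩
      · exact Or.inr ⟨mem_univ _, hi.2, le_antisymm (hm i).2 h3⟩
    have h3 := (card_le_card h2).trans (card_union_le _ _)
    have h4 : (univ.filter fun i => d + 1 < 2 * m i ∧ m i < d).card ≤ r - c := by
      rcases hcase with h5 | ⟨h5, -⟩
      · omega
      · have h6 := h5.trans (mul_le_mul_of_nonneg_right hδ1 (Nat.cast_nonneg _))
        rw [one_mul] at h6
        exact_mod_cast h6
    omega
  have hlow := Pool.Agent.V8.lowK r d k (by omega) m I hIc hm (fun i j _ hi hj => by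
    have := hnI i hi
    have := hnI j hj
    omega)
  have hg : Gen r (Fin k) fun p => Module.finrank ℂ (fatForms r d p m) = gdim r d m :=
    gen_gdim r d m
  have hg2 : Gen r (Fin k) fun p =>
      fro r (fun i => d + 1 - m i) univ d ≤ (Module.finrank ℂ (fatForms r d p m) : ℤ) := hlow
  have hfin : Gen r (Fin k) fun p => (Module.finrank ℂ (fatForms r d p m) : ℤ) =
        max (fro r (fun i => d + 1 - m i) univ d) 0 := by
    refine (hg.and hg2).mono ?_
    rintro p ⟨hp1, hp2⟩
    rw [← hp1] at hup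
    omega
  exact hfin

end Pool.Agent.LU
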