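import Pool.Agent.LU.Lev
import Pool.Agent.LK.Lam
import Pool.Agent.H51.TB.ULim
import Pool.Agent.H51.TB.Cell

/-!
# LU6: from the numbers of points in the cells to `GM`
-/

set_option autoImplicit false

namespace Pool.Agent.LU

open Finset MvPolynomial Pool.Agent.H18.Ex Pool.Agent.H21.NX Pool.Agent.H18.Ta Pool.Agent.H51.TB
  Pool.Agent.H21.TC Pool.Agent.V7.ST Pool.Agent.LK

private abbrev Cnt_I (d : ℕ) (c : ℕ → ℕ × ℕ → ℕ) : Type :=
  Σ y : {y : ℕ × (ℕ × ℕ) // y ∈ range (d + 1) ×ˢ KK d}, Fin (c y.1.1 y.1.2)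

private theorem Cnt_sum {M : Type} [AddCommMonoid M] (d : ℕ) (c : ℕ → ℕ × ℕ → ℕ)
    (F : ℕ → ℕ × ℕ → M) :
    ∑ s : Cnt_I d c, F s.1.1.1 s.1.1.2 = ∑ m ∈ range (d + 1), ∑ x ∈ KK d, c m x • F m x := by
  rw [Fintype.sum_sigma]
  have h1 : ∀ y : {y : ℕ × (ℕ × ℕ) // y ∈ range (d + 1) ×ˢ KK d},
      ∑ _t : Fin (c y.1.1 y.1.2), F y.1.1 y.1.2 =
        (fun z : ℕ × (ℕ × ℕ) => c z.1 z.2 • F z.1 z.2) y.1 := by
    intro y
    rw [sum_const, card_univ, Fintype.card_fin]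
  rw [sum_congr rfl fun y _ => h1 y]
  rw [← Finset.sum_product']
  exact Finset.sum_coe_sort (range (d + 1) ×ˢ KK d) fun z : ℕ × (ℕ × ℕ) => c z.1 z.2 • F z.1 z.2

private theorem Cnt_univ_map {κ X : Type} [Fintype κ] (f : κ → X) :
    (univ : Finset κ).val.map f = ∑ i, ({f i} : Multiset X) := by
  show _ = ((univ : Finset κ).val.map fun i => ({f i} : Multiset X)).sum
  have h := Multiset.sum_map_singleton ((univ : Finset κ).val.map f)
  rw [Multiset.map_map] at h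
  exact h.symm

/-- The weights of `Box e` and of `Bj e j` on the level `j`. -/
private theorem Cnt_WD {K : ℕ} (a b d j : ℕ) (e : Fin K → ℕ) (m : ℕ) (x : ℕ × ℕ) :
    wtw d m (WD a b (Box e)) x j = ∑ g ∈ Lam d m x j, WD a b (Bj e j) g := by
  unfold wtw
  refine sum_congr rfl fun g hg => ?_
  have hg2 : g.2 ≤ j := by
    unfold Lam at hg
    exact (mem_filter.1 hg).2.1
  unfold WD Bj
  rw [sum_filter]
  refine sum_congr rfl fun k _ => ?_
  split_ifs with h
  · rfl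
  · unfold wk
    rw [if_neg (by omega)]

private theorem Cnt_ND {K : ℕ} (a b d j : ℕ) (e : Fin K → ℕ) :
    ND a b d j (Box e) = ND a b d j (Bj e j) := by
  unfold ND Bj
  rw [sum_filter]
  refine sum_congr rfl fun k _ => ?_
  split_ifs with h
  · rfl
  · unfold nk
    rw [if_neg h]

theorem GM_of_counts_U {K a b d M μ : ℕ} (ha : 2 ≤ a) (hb : K + 2 ≤ b) (hMab : M ≤ a + b)
    (hμ : 1 ≤ μ) (hμM : μ ≤ M) (e : Fin K → ℕ) (he : ∀ s, e s ≤ d) (R : ℕ)
    (hR : RU d ≤ R) (A : ℕ → ℕ) (hA : ∀ m, A m ≠ 0 → 1 ≤ m ∧ m ≤ M)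
    (c : ℕ → ℕ × ℕ → ℕ) (hc : ∀ m ∈ range (d + 1), ∑ x ∈ KK d, c m x = A m)
    (h1 : ∀ j ≤ d, ND a b d j (Box e) ≤
      ∑ m ∈ range (d + 1), ∑ x ∈ KK d, c m x * wtw d m (WD a b (Box e)) x j)
    (h2 : ∀ j ≤ d, ∀ t, 1 ≤ t → t < μ → R * (ell (a + b) (t + 1) * ell (a + b) M) ≤
      ∑ m ∈ range (d + 1), ∑ x ∈ KK d,
        if cls d m x j = t then c m x * wtw d m (wk a b (0 : Fin K → ℕ)) x j else 0)
    (h3 : ∀ j ≤ d, R * (2 * (ell (a + b) M * ell (a + b) M)) ≤
      ∑ m ∈ range (d + 1), ∑ x ∈ KK d,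
        if cls d m x j = μ then c m x * wtw d m (wk a b (0 : Fin K → ℕ)) x j else 0)
    (h4 : ∀ j ≤ d, ∀ k ∈ Bj e j, k ≠ 0 →
      ∑ m ∈ range (d + 1), ∑ x ∈ KK d, c m x * wtw d m (wk a b k) x j +
        R * ell (a + b) M * ∑ g ∈ top d M j, wk a b k g < nk a b d j k) :
    GM (Sx (Z a b) d) (((univ : Finset (Fin K)).val.map (fun s => d - e s) +
      ∑ m ∈ range (d + 1), Multiset.replicate (A m) m).map Kind.free) := by
  classical
  -- the variables of `J`
  let o : Fin K → Fin b := fun s => ⟨s.1, by omega⟩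
  have ho : Function.Injective o := fun s t h => by
    have h5 : (o s).1 = (o t).1 := congrArg Fin.val h
    exact Fin.ext h5
  refine GM_J (fun s => (Sum.inr (o s) : Z a b)) d e he _ ?_
  let mult : Cnt_I d c → ℕ := fun s => s.1.1.1
  let cell : Cnt_I d c → ℕ × ℕ := fun s => s.1.1.2
  have hmul : (univ : Finset (Cnt_I d c)).val.map mult =
      ∑ m ∈ range (d + 1), Multiset.replicate (A m) m := by
    rw [Cnt_univ_map]
    refine (Cnt_sum d c (fun m _ => ({m} : Multiset ℕ))).trans ?_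
    refine sum_congr rfl fun m hm => ?_
    rw [← Finset.sum_smul, hc m hm, Multiset.nsmul_singleton]
  rw [← hmul, Multiset.map_map, GM_iff]
  have hi : ∀ s : Cnt_I d c, A s.1.1.1 ≠ 0 := by
    intro s
    have h5 := s.1.2
    rw [mem_product] at h5
    rw [← hc _ h5.1]
    have h6 : 0 < c s.1.1.1 s.1.1.2 := lt_of_le_of_lt (Nat.zero_le _) s.2.2
    have h7 : c s.1.1.1 s.1.1.2 ≤ ∑ x ∈ KK d, c s.1.1.1 x :=
      single_le_sum (fun x _ => Nat.zero_le (c s.1.1.1 x)) h5.2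
    omega
  have hcell : ∀ i, (cell i).1 + (cell i).2 ≤ d := fun s => by
    have h5 := s.1.2
    rw [mem_product] at h5
    exact mem_KK.1 h5.2
  have hmM : ∀ i, mult i ≤ M := fun s => (hA _ (hi s)).2
  refine limit_A _ (filter_subset _ _) mult cell hcell fun j hj => ?_
  have hlev : ((Sx (Z a b) d).filter fun α => ∀ s, α (Sum.inr (o s)) ≤ e s).filter
      (fun α => yd α = j) = Bd a b d j o (Bj e j) := by
    ext α
    rw [mem_filter, mem_filter, mem_Bd, mem_Bj]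
    unfold Bx
    rw [mem_filter]
    constructor
    · rintro ⟨⟨h5, h6⟩, h7⟩
      refine ⟨⟨h5, h7⟩, h6, ?_⟩
      have h8 : tk (jp o α) ≤ yd α := by
        have h9 : tk (jp o α) = ∑ i ∈ univ.image o, α (Sum.inr i) := by
          unfold tk jp
          rw [sum_image fun x _ y _ h => ho h]
        rw [h9]
        exact sum_le_sum_of_subset (subset_univ _)
      omega
    · rintro ⟨⟨h5, h7⟩, h6, -⟩
      exact ⟨⟨h5, h6⟩, h7⟩
  rw [hlev, gd_eq_gM]
  -- sums over the points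
  have hsum : ∀ F : ℕ → ℕ × ℕ → ℕ, (((univ : Finset (Cnt_I d c)).val.map
      fun i => F (mult i) (cell i)).sum) = ∑ m ∈ range (d + 1), ∑ x ∈ KK d, c m x * F m x :=
    fun F => Cnt_sum d c F
  have hcl : ∀ t, ((((univ : Finset (Cnt_I d c)).val.map fun i => Lam d (mult i) (cell i) j).filter
      fun Λ => cl Λ = t).map fun Λ => ∑ g ∈ Λ, wk a b (0 : Fin K → ℕ) g).sum =
      ∑ m ∈ range (d + 1), ∑ x ∈ KK d,
        if cls d m x j = t then c m x * wtw d m (wk a b (0 : Fin K → ℕ)) x j else 0 := by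
    intro t
    have h5 : ∀ (T : Multiset (Finset (ℕ × ℕ))), ((T.filter fun Λ => cl Λ = t).map
        fun Λ => ∑ g ∈ Λ, wk a b (0 : Fin K → ℕ) g).sum =
        (T.map fun Λ => if cl Λ = t then ∑ g ∈ Λ, wk a b (0 : Fin K → ℕ) g else 0).sum := by
      intro T
      induction T using Multiset.induction_on with
      | empty => simp
      | cons Λ T ih =>
        rw [Multiset.map_cons, Multiset.sum_cons, ← ih]
        by_cases h6 : cl Λ = t
        · rw [Multiset.filter_cons_of_pos (p := fun Λ => cl Λ = t) _ h6, Multiset.map_cons, Multiset.sum_cons, if_pos h6]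
        · rw [Multiset.filter_cons_of_neg (p := fun Λ => cl Λ = t) _ h6, if_neg h6, Nat.zero_add]
    rw [h5, Multiset.map_map]
    have h6 := hsum fun m x => if cls d m x j = t then wtw d m (wk a b (0 : Fin K → ℕ)) x j else 0
    refine Eq.trans ?_ (h6.trans ?_)
    · rfl
    · refine sum_congr rfl fun m _ => sum_congr rfl fun x _ => ?_
      split_ifs
      · rfl
      · rw [mul_zero]
  refine level_U (by omega) (by omega) ho hj e he hμ hμM hMab R hR _ ?_ ?_ ?_ ?_ ?_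
  · intro Λ hΛ
    rw [Multiset.mem_map] at hΛ
    obtain ⟨i, -, rfl⟩ := hΛ
    refine ⟨Lam_Dn _ _ _ _, Lam_Wi _ _ _ _, fun g hg => ?_⟩
    have h5 := hmM i
    unfold Lam at hg
    rw [mem_filter] at hg
    omega
  · rw [Multiset.map_map]
    refine (Cnt_ND a b d j e).symm.le.trans ((h1 j hj).trans ?_)
    have h6 := hsum fun m x => ∑ g ∈ Lam d m x j, WD a b (Bj e j) g
    refine le_of_eq (Eq.trans ?_ h6.symm)
    exact sum_congr rfl fun m _ => sum_congr rfl fun x _ => by rw [Cnt_WD]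
  · intro t ht1 ht2
    rw [hcl t]
    exact h2 j hj t ht1 ht2
  · rw [hcl μ]
    exact h3 j hj
  · intro k hk hk0
    rw [Multiset.map_map]
    have h6 := hsum fun m x => wtw d m (wk a b k) x j
    have h7 : ((univ : Finset (Cnt_I d c)).val.map ((fun Λ => ∑ g ∈ Λ, wk a b k g) ∘
        fun i => Lam d (mult i) (cell i) j)).sum = ∑ m ∈ range (d + 1), ∑ x ∈ KK d,
          c m x * wtw d m (wk a b k) x j := h6
    rw [h7]
    exact h4 j hj k hk hk0

end Pool.Agent.LU
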