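import Pool.Agent.LU.Defs
import Pool.Agent.H21.TC.Mcr
import Pool.Agent.H51.TB.Asy

/-!
# LU4: the weights of the problem, uniformly in the number of the large points

If all `e s ≥ 1`, all squarefree exponents are allowed at the special variables, so the weights are asymptotic to the
unbounded ones, with a relative error which does not depend on `K ≤ b - 2` and `e`.
-/

set_option autoImplicit false

namespace Pool.Agent.LU

open Finset MvPolynomial Pool.Agent.H18.Ex Pool.Agent.H21.NX Pool.Agent.H18.Ta Pool.Agent.H51.TB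
  Pool.Agent.H21.TC Pool.Agent.V7.ST Pool.Agent.LK

/-! ### Sums over boxes -/

private theorem WtU_box {K : ℕ} (e : Fin (K + 1) → ℕ) (f : (Fin (K + 1) → ℕ) → ℕ) :
    ∑ k ∈ Box e, f k = ∑ i ∈ range (e 0 + 1), ∑ k ∈ Box (Fin.tail e), f (Fin.cons i k) := by
  rw [← Finset.sum_product']
  refine Finset.sum_nbij' (fun k => (k 0, Fin.tail k)) (fun x => Fin.cons x.1 x.2) ?_ ?_ ?_ ?_ ?_
  · intro k hk
    rw [mem_Box] at hk
    rw [mem_product, mem_range, mem_Box]
    exact ⟨Nat.lt_succ_of_le (hk 0), fun s => hk s.succ⟩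
  · intro x hx
    rw [mem_product, mem_range, mem_Box] at hx
    rw [mem_Box]
    intro s
    refine Fin.cases ?_ (fun s => ?_) s
    · rw [Fin.cons_zero]
      exact Nat.le_of_lt_succ hx.1
    · rw [Fin.cons_succ]
      exact hx.2 s
  · intro k _
    exact Fin.cons_self_tail k
  · intro x _
    simp
  · intro k _
    rw [Fin.cons_self_tail k]

private theorem WtU_tk {K : ℕ} (i : ℕ) (k : Fin K → ℕ) :
    tk (Fin.cons i k : Fin (K + 1) → ℕ) = i + tk k := by
  unfold tk
  rw [Fin.sum_univ_succ, Fin.cons_zero]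
  simp only [Fin.cons_succ]

/-- the sum of `f (v - |k|)` over the pieces `k ≤ e` -/
private def WtUS {K : ℕ} (e : Fin K → ℕ) (f : ℕ → ℕ) (v : ℕ) : ℕ :=
  ∑ k ∈ Box e, if tk k ≤ v then f (v - tk k) else 0

private theorem WtU_succ {K : ℕ} (e : Fin (K + 1) → ℕ) (f : ℕ → ℕ) (v : ℕ) :
    WtUS e f v = ∑ i ∈ range (e 0 + 1), if i ≤ v then WtUS (Fin.tail e) f (v - i) else 0 := by
  unfold WtUS
  rw [WtU_box]
  refine Finset.sum_congr rfl fun i _ => ?_
  by_cases hi : i ≤ v
  · rw [if_pos hi]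
    refine Finset.sum_congr rfl fun k _ => ?_
    rw [WtU_tk]
    by_cases hk : tk k ≤ v - i
    · rw [if_pos hk, if_pos (by omega), Nat.sub_sub]
    · rw [if_neg hk, if_neg (by omega)]
  · rw [if_neg hi]
    refine Finset.sum_eq_zero fun k _ => ?_
    rw [WtU_tk, if_neg (by omega)]

private theorem WtU_nil (e : Fin 0 → ℕ) (f : ℕ → ℕ) (v : ℕ) : WtUS e f v = f v := by
  unfold WtUS
  have h1 : Box e = {0} := by
    ext k
    rw [mem_Box, mem_singleton]
    exact ⟨fun _ => Subsingleton.elim _ _, fun _ s => s.elim0⟩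
  rw [h1, Finset.sum_singleton, tk_zero, if_pos (Nat.zero_le _), Nat.sub_zero]

private theorem WtU_ge {K : ℕ} (e : Fin K → ℕ) (f : ℕ → ℕ) (v : ℕ) : f v ≤ WtUS e f v := by
  unfold WtUS
  have h1 : (0 : Fin K → ℕ) ∈ Box e := mem_Box.2 fun s => Nat.zero_le _
  have h2 := Finset.single_le_sum (f := fun k : Fin K → ℕ => if tk k ≤ v then f (v - tk k) else 0)
    (fun _ _ => Nat.zero_le _) h1
  simpa [tk_zero] using h2

private theorem WtU_sum1 (v : ℕ) : ∀ m : ℕ, ∑ k ∈ range (m + 1), Nat.multichoose v (m - k) =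
    Nat.multichoose (v + 1) m := by
  intro m
  have h1 := Finset.sum_range_reflect (fun i => Nat.multichoose v i) (m + 1)
  have h2 : ∀ m : ℕ, ∑ k ∈ range (m + 1), Nat.multichoose v k = Nat.multichoose (v + 1) m := by
    intro m
    induction m with
    | zero => rw [Finset.sum_range_one, Nat.multichoose_zero_right, Nat.multichoose_zero_right]
    | succ m ih =>
      rw [Finset.sum_range_succ, ih, Nat.multichoose_succ_succ, Nat.add_comm]
  rw [← h2, ← h1]
  refine Finset.sum_congr rfl fun i _ => ?_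
  rw [Nat.add_sub_cancel]

private theorem WtU_le (n : ℕ) : ∀ {K : ℕ} (e : Fin K → ℕ) (v : ℕ),
    WtUS e (Nat.multichoose n) v ≤ Nat.multichoose (n + K) v := by
  intro K
  induction K with
  | zero => exact fun e v => (WtU_nil e _ v).le
  | succ K ih =>
    intro e v
    rw [WtU_succ, ← Finset.sum_filter]
    calc ∑ i ∈ (range (e 0 + 1)).filter (fun i => i ≤ v),
          WtUS (Fin.tail e) (Nat.multichoose n) (v - i)
        ≤ ∑ i ∈ (range (e 0 + 1)).filter (fun i => i ≤ v), Nat.multichoose (n + K) (v - i) :=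
          Finset.sum_le_sum fun i _ => ih _ _
      _ ≤ ∑ i ∈ range (v + 1), Nat.multichoose (n + K) (v - i) := by
          refine Finset.sum_le_sum_of_subset fun i hi => ?_
          rw [mem_filter] at hi
          rw [mem_range]
          omega
      _ = Nat.multichoose (n + (K + 1)) v := by rw [WtU_sum1, Nat.add_assoc]

/-! ### The weights in terms of the sums -/

private theorem WtU_WD {K : ℕ} (a b : ℕ) (e : Fin K → ℕ) (g : ℕ × ℕ) : WD a b (Box e) g =
    Nat.multichoose (a - 1) g.1 * WtUS e (Nat.multichoose (b - 1 - K)) g.2 := by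
  unfold WD WtUS
  rw [Finset.mul_sum]
  refine Finset.sum_congr rfl fun k _ => ?_
  unfold wk
  by_cases hk : tk k ≤ g.2
  · rw [if_pos hk, if_pos hk]
  · rw [if_neg hk, if_neg hk, Nat.mul_zero]

private theorem WtU_ND {K : ℕ} (a b d j : ℕ) (e : Fin K → ℕ) : ND a b d j (Box e) =
    Nat.multichoose a (d - j) * WtUS e (Nat.multichoose (b - K)) j := by
  unfold ND WtUS
  rw [Finset.mul_sum]
  refine Finset.sum_congr rfl fun k _ => ?_
  unfold nk
  by_cases hk : tk k ≤ j
  · rw [if_pos hk, if_pos hk]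
  · rw [if_neg hk, if_neg hk, Nat.mul_zero]

private theorem WtU_w0 {K : ℕ} (a b : ℕ) (g : ℕ × ℕ) : wk a b (0 : Fin K → ℕ) g =
    Nat.multichoose (a - 1) g.1 * Nat.multichoose (b - 1 - K) g.2 := by
  unfold wk
  rw [tk_zero, if_pos (Nat.zero_le _), Nat.sub_zero]

/-! ### Asymptotics -/

private theorem WtU_mcl (n k : ℕ) : Nat.multichoose n k ≤ Nat.multichoose (n + 1) k := by
  rcases k with _ | k
  · simp
  · rw [Nat.multichoose_succ_succ]
    exact Nat.le_add_right _ _

private theorem WtU_mcr (n k : ℕ) :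
    Nat.multichoose (n + 1) k ≤ Nat.multichoose (n + 1) (k + 1) := by
  rw [Nat.multichoose_succ_succ]
  exact Nat.le_add_left _ _

private theorem WtU_mono {v w n s t k : ℕ} (hn : v + w ≤ n + 1) (hk : s + t ≤ k) :
    Nat.multichoose v s * Nat.multichoose w t ≤ Nat.multichoose (n + 1) k := by
  have h1 : Nat.multichoose v s * Nat.multichoose w t ≤ Nat.multichoose (v + w) (s + t) := by
    rw [← sum_multichoose]
    exact Finset.single_le_sum (f := fun g : ℕ × ℕ => Nat.multichoose v g.1 * Nat.multichoose w g.2)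
      (fun _ _ => Nat.zero_le _) (mem_antidiagonal.2 rfl : (s, t) ∈ antidiagonal (s + t))
  have h2 : Monotone fun m => Nat.multichoose m (s + t) :=
    monotone_nat_of_le_succ fun m => WtU_mcl m _
  have h3 : Monotone fun j => Nat.multichoose (n + 1) j :=
    monotone_nat_of_le_succ fun j => WtU_mcr n j
  exact h1.trans ((h2 hn).trans (h3 hk))

private theorem WtU_ell (n k : ℕ) : ell n (k + 1) = Nat.multichoose (n + 1) k := by
  rw [Nat.multichoose_eq]
  unfold ell
  rw [show k + 1 + n - 1 = n + k by omega, show n + 1 + k - 1 = n + k by omega,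
    Nat.choose_symm_add]

private theorem WtU_ratio {n c : ℕ} (hc : 1 ≤ c) : ell n c * (c + n) = ell n (c + 1) * c := by
  unfold ell
  have := Nat.choose_mul_succ_eq (c + n - 1) n
  rw [show c + n - 1 + 1 = c + n by omega, show c + n - n = c by omega] at this
  rw [this, show c + 1 + n - 1 = c + n by omega]

/-- the terms of smaller degree are small -/
private theorem WtU_small (k : ℕ) (δ : ℝ) (hδ : 0 < δ) : ∃ n₁ : ℕ, ∀ n : ℕ, n₁ ≤ n →
    ∀ v w s t : ℕ, v + w ≤ n + 1 → s + t < k →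
      ((Nat.multichoose v s * Nat.multichoose w t : ℕ) : ℝ) ≤ δ * (ell n (k + 1) : ℝ) := by
  obtain ⟨n₁, hn₁⟩ := exists_nat_ge ((k : ℝ) / δ)
  refine ⟨n₁, fun n hn v w s t hv hs => ?_⟩
  have hk : 1 ≤ k := by omega
  have h1 := WtU_mono (n := n) (k := k - 1) hv (show s + t ≤ k - 1 by omega)
  rw [← WtU_ell, show k - 1 + 1 = k by omega] at h1
  have h2 := WtU_ratio (n := n) hk
  have h3 : ((Nat.multichoose v s * Nat.multichoose w t : ℕ) : ℝ) ≤ (ell n k : ℝ) := by
    exact_mod_cast h1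
  have h4 : (ell n k : ℝ) * ((k : ℝ) + n) = (ell n (k + 1) : ℝ) * k := by exact_mod_cast h2
  have h5 : (0 : ℝ) < k := by exact_mod_cast hk
  have h6 : (k : ℝ) ≤ δ * ((k : ℝ) + n) := by
    rw [div_le_iff₀ hδ] at hn₁
    have h7 : (n₁ : ℝ) ≤ n := by exact_mod_cast hn
    have h8 : (n₁ : ℝ) * δ ≤ n * δ := mul_le_mul_of_nonneg_right h7 hδ.le
    nlinarith
  have h7 : (0 : ℝ) < (k : ℝ) + n := by positivity
  have h8 : (0 : ℝ) ≤ (ell n (k + 1) : ℝ) := Nat.cast_nonneg _
  refine h3.trans (le_of_mul_le_mul_right ?_ h7)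
  rw [h4]
  calc (ell n (k + 1) : ℝ) * k ≤ (ell n (k + 1) : ℝ) * (δ * ((k : ℝ) + n)) :=
        mul_le_mul_of_nonneg_left h6 h8
    _ = δ * (ell n (k + 1) : ℝ) * ((k : ℝ) + n) := by ring


/-- The lower bound: only the exponents `≥ 2` at a special variable are missing. -/
private theorem WtU_lower (n : ℕ) : ∀ {K : ℕ} (e : Fin K → ℕ), (∀ s, 1 ≤ e s) → ∀ v : ℕ,
    Nat.multichoose (n + K) v ≤ WtUS e (Nat.multichoose n) v +
      if 2 ≤ v then K * Nat.multichoose (n + K) (v - 2) else 0 := by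
  intro K
  induction K with
  | zero =>
    intro e _ v
    rw [WtU_nil]
    exact Nat.le_add_right _ _
  | succ K ih =>
    intro e he v
    have he' : ∀ s, 1 ≤ Fin.tail e s := fun s => he s.succ
    obtain ⟨m, hm⟩ : ∃ m, e 0 = m + 1 := ⟨e 0 - 1, by have := he 0; omega⟩
    -- the terms `i = 0, 1`
    have h1 : WtUS (Fin.tail e) (Nat.multichoose n) v +
        (if 1 ≤ v then WtUS (Fin.tail e) (Nat.multichoose n) (v - 1) else 0) ≤
        WtUS e (Nat.multichoose n) v := by
      rw [WtU_succ, hm, Finset.sum_range_succ', Finset.sum_range_succ', if_pos (Nat.zero_le v),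
        Nat.sub_zero, Nat.zero_add]
      omega
    have h2 := ih (Fin.tail e) he' v
    rcases v with _ | _ | v
    · simp only [Nat.multichoose_zero_right] at h1 h2 ⊢
      rw [if_neg (by omega)] at h1 h2 ⊢
      omega
    · have h3 := ih (Fin.tail e) he' 0
      simp only [Nat.multichoose_zero_right] at h3
      rw [if_neg (by omega)] at h2 h3 ⊢
      rw [if_pos (by omega)] at h1
      simp only [Nat.multichoose_one_right, Nat.zero_add, Nat.sub_self] at h1 h2 h3 ⊢
      omega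
    · have h3 := ih (Fin.tail e) he' (v + 1)
      rw [if_pos (by omega)] at h1 h2 ⊢
      rw [show v + 1 + 1 - 2 = v by omega] at h2 ⊢
      rw [show v + 1 + 1 - 1 = v + 1 by omega] at h1
      have h4 : Nat.multichoose (n + (K + 1)) (v + 1 + 1) = Nat.multichoose (n + K) (v + 1 + 1) +
          (Nat.multichoose (n + K) (v + 1) + Nat.multichoose (n + K + 1) v) := by
        rw [← Nat.add_assoc, Nat.multichoose_succ_succ, Nat.multichoose_succ_succ (n + K) v]
      have h5 : (if 2 ≤ v + 1 then K * Nat.multichoose (n + K) (v + 1 - 2) else 0) +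
          K * Nat.multichoose (n + K) v ≤ K * Nat.multichoose (n + K + 1) v := by
        rcases v with _ | v
        · simp
        · rw [if_pos (by omega), show v + 1 + 1 - 2 = v by omega, Nat.multichoose_succ_succ,
            Nat.mul_add]
          have := Nat.mul_le_mul_left K (WtU_mcl (n + K) v)
          omega
      have h6 : (K + 1) * Nat.multichoose (n + (K + 1)) v =
          K * Nat.multichoose (n + K + 1) v + Nat.multichoose (n + K + 1) v := by
        rw [← Nat.add_assoc]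
        ring
      omega

/-- the terms of degree smaller by two are small, even `n` times -/
private theorem WtU_small2 (k : ℕ) (δ : ℝ) (hδ : 0 < δ) : ∃ n₁ : ℕ, ∀ n : ℕ, n₁ ≤ n →
    ∀ v w s t K : ℕ, v + w ≤ n + 1 → K ≤ n → s + t + 2 ≤ k →
      ((K * (Nat.multichoose v s * Nat.multichoose w t) : ℕ) : ℝ) ≤ δ * (ell n (k + 1) : ℝ) := by
  obtain ⟨n₁, hn₁⟩ := exists_nat_ge ((k : ℝ) * k / δ)
  refine ⟨n₁ + 1, fun n hn v w s t K hv hK hs => ?_⟩
  have h1 := WtU_mono (n := n) (k := k - 2) hv (show s + t ≤ k - 2 by omega)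
  rw [← WtU_ell, show k - 2 + 1 = k - 1 by omega] at h1
  have h2 := WtU_ratio (n := n) (c := k - 1) (by omega)
  have h3 := WtU_ratio (n := n) (c := k) (by omega)
  rw [show k - 1 + 1 = k by omega] at h2
  have hn0 : (0 : ℝ) < n := by exact_mod_cast (by omega : 0 < n)
  -- ell (k - 1) * n ≤ ell k * k, ell k * n ≤ ell (k + 1) * k
  have h4 : ell n (k - 1) * n ≤ ell n k * k := by
    calc ell n (k - 1) * n ≤ ell n (k - 1) * (k - 1 + n) := Nat.mul_le_mul_left _ (Nat.le_add_left _ _)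
      _ = ell n k * (k - 1) := h2
      _ ≤ ell n k * k := Nat.mul_le_mul_left _ (Nat.sub_le _ _)
  have h5 : ell n k * n ≤ ell n (k + 1) * k := by
    calc ell n k * n ≤ ell n k * (k + n) := Nat.mul_le_mul_left _ (Nat.le_add_left _ _)
      _ = ell n (k + 1) * k := h3
  have h6 : ell n (k - 1) * n * n ≤ ell n (k + 1) * k * k := by
    calc ell n (k - 1) * n * n ≤ ell n k * k * n := Nat.mul_le_mul_right _ h4
      _ = ell n k * n * k := by ring
      _ ≤ ell n (k + 1) * k * k := Nat.mul_le_mul_right _ h5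
  have h7 : K * (Nat.multichoose v s * Nat.multichoose w t) ≤ n * ell n (k - 1) :=
    Nat.mul_le_mul hK h1
  have h8 : ((K * (Nat.multichoose v s * Nat.multichoose w t) : ℕ) : ℝ) ≤
      (n : ℝ) * (ell n (k - 1) : ℝ) := by exact_mod_cast h7
  have h9 : (ell n (k - 1) : ℝ) * n * n ≤ (ell n (k + 1) : ℝ) * k * k := by exact_mod_cast h6
  have h10 : (k : ℝ) * k ≤ δ * n := by
    rw [div_le_iff₀ hδ] at hn₁
    have h11 : (n₁ : ℝ) ≤ n := by exact_mod_cast (by omega : n₁ ≤ n)
    have h12 : (n₁ : ℝ) * δ ≤ n * δ := mul_le_mul_of_nonneg_right h11 hδ.le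
    linarith
  have hE : (0 : ℝ) ≤ (ell n (k + 1) : ℝ) := Nat.cast_nonneg _
  refine h8.trans (le_of_mul_le_mul_right ?_ hn0)
  calc (n : ℝ) * (ell n (k - 1) : ℝ) * n = (ell n (k - 1) : ℝ) * n * n := by ring
    _ ≤ (ell n (k + 1) : ℝ) * k * k := h9
    _ = (ell n (k + 1) : ℝ) * (k * k) := by ring
    _ ≤ (ell n (k + 1) : ℝ) * (δ * n) := mul_le_mul_of_nonneg_left h10 hE
    _ = δ * (ell n (k + 1) : ℝ) * n := by ring

/-- The comparison of the sums over the boxes, uniform in `K` and `e`. -/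
private theorem WtU_cmp (k : ℕ) (δ : ℝ) (hδ : 0 < δ) : ∃ n₁ : ℕ, ∀ N : ℕ, n₁ ≤ N →
    ∀ (v n p q K : ℕ) (e : Fin K → ℕ), (∀ s, 1 ≤ e s) → v + (n + K) ≤ N + 1 → 1 ≤ v + n → p + q = k →
      |((Nat.multichoose v p * Nat.multichoose (n + K) q : ℕ) : ℝ) -
        ((Nat.multichoose v p * WtUS e (Nat.multichoose n) q : ℕ) : ℝ)| ≤ δ * (ell N (k + 1) : ℝ) := by
  obtain ⟨n₁, h⟩ := WtU_small2 k δ hδ
  refine ⟨n₁, fun N hN v n p q K e he hv hvn hk => ?_⟩
  have h1 := WtU_le n e q
  have h2 := WtU_lower n e he q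
  have hE : (0 : ℝ) ≤ (ell N (k + 1) : ℝ) := Nat.cast_nonneg _
  have h3 : ((Nat.multichoose v p * WtUS e (Nat.multichoose n) q : ℕ) : ℝ) ≤
      ((Nat.multichoose v p * Nat.multichoose (n + K) q : ℕ) : ℝ) := by
    exact_mod_cast Nat.mul_le_mul_left _ h1
  rw [abs_of_nonneg (by linarith)]
  rcases Nat.lt_or_ge q 2 with hq | hq
  · rw [if_neg (by omega), Nat.add_zero] at h2
    have h4 : ((Nat.multichoose v p * Nat.multichoose (n + K) q : ℕ) : ℝ) ≤
        ((Nat.multichoose v p * WtUS e (Nat.multichoose n) q : ℕ) : ℝ) := by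
      exact_mod_cast Nat.mul_le_mul_left _ h2
    have h5 : 0 ≤ δ * (ell N (k + 1) : ℝ) := by positivity
    linarith
  · rw [if_pos hq] at h2
    have h4 := h N hN v (n + K) p (q - 2) K hv (by omega) (by omega)
    have h5 : ((Nat.multichoose v p * Nat.multichoose (n + K) q : ℕ) : ℝ) ≤
        ((Nat.multichoose v p * WtUS e (Nat.multichoose n) q : ℕ) : ℝ) +
          ((K * (Nat.multichoose v p * Nat.multichoose (n + K) (q - 2)) : ℕ) : ℝ) := by
      have h6 := Nat.mul_le_mul_left (Nat.multichoose v p) h2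
      have h7 : Nat.multichoose v p * (WtUS e (Nat.multichoose n) q +
          K * Nat.multichoose (n + K) (q - 2)) =
          Nat.multichoose v p * WtUS e (Nat.multichoose n) q +
            K * (Nat.multichoose v p * Nat.multichoose (n + K) (q - 2)) := by ring
      rw [h7] at h6
      exact_mod_cast h6
    linarith

/-- the weights, uniformly in `K` and `e` -/
private theorem WtU_asyW (p q : ℕ) (δ : ℝ) (hδ : 0 < δ) : ∃ ε : ℝ, 0 < ε ∧ ∃ n₀ : ℕ,
    ∀ (K : ℕ) (e : Fin K → ℕ), (∀ s, 1 ≤ e s) → ∀ a b : ℕ, 2 ≤ a → 2 ≤ b →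
    n₀ ≤ a + b → |(a : ℝ) - b| ≤ ε * (a + b : ℕ) →
    |(WK e a b (p, q) : ℝ) -
      ((p + q).choose q : ℝ) / 2 ^ (p + q) * (ell (a + b - 1) (p + q + 1) : ℝ)| ≤
      δ * (ell (a + b - 1) (p + q + 1) : ℝ) := by
  obtain ⟨ε, hε, n₀, h⟩ := asy p q (δ / 2) (by linarith)
  obtain ⟨n₁, hc⟩ := WtU_cmp (p + q) (δ / 2) (by linarith)
  refine ⟨ε, hε, max n₀ (n₁ + 1), fun K e he a b ha hb hn hab => ?_⟩
  have hn0 : n₀ ≤ a + b := (le_max_left _ _).trans hn
  have hn1 : n₁ + 1 ≤ a + b := (le_max_right _ _).trans hn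
  have h4 := h a b (by omega) (by omega) hn0 hab
  have hE : (0 : ℝ) ≤ (ell (a + b - 1) (p + q + 1) : ℝ) := Nat.cast_nonneg _
  by_cases hKb : K + 2 ≤ b
  · have h5 := hc (a + b - 1) (by omega) (a - 1) (b - 1 - K) p q K e he (by omega) (by omega) rfl
    rw [show b - 1 - K + K = b - 1 by omega] at h5
    have hW : WK e a b (p, q) = Nat.multichoose (a - 1) p * WtUS e (Nat.multichoose (b - 1 - K)) q := by
      unfold WK
      rw [if_pos hKb, WtU_WD]
    rw [hW]
    rw [abs_le] at h4 h5 ⊢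
    constructor <;> linarith [h4.1, h4.2, h5.1, h5.2]
  · have hW : WK e a b (p, q) = Nat.multichoose (a - 1) p * Nat.multichoose (b - 1) q := by
      unfold WK
      rw [if_neg hKb]
      rfl
    rw [hW]
    refine h4.trans (mul_le_mul_of_nonneg_right (by linarith) hE)

/-- the dimensions of the levels, uniformly in `K` and `e` -/
private theorem WtU_asyB (d q : ℕ) (hqd : q ≤ d) (δ : ℝ) (hδ : 0 < δ) : ∃ ε : ℝ, 0 < ε ∧ ∃ n₀ : ℕ,
    ∀ (K : ℕ) (e : Fin K → ℕ), (∀ s, 1 ≤ e s) → ∀ a b : ℕ, 2 ≤ a → 2 ≤ b →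
    n₀ ≤ a + b → |(a : ℝ) - b| ≤ ε * (a + b : ℕ) →
    |(BK e d a b q : ℝ) - (d.choose q : ℝ) / 2 ^ d * (ell (a + b - 1) (d + 1) : ℝ)| ≤
      δ * (ell (a + b - 1) (d + 1) : ℝ) := by
  obtain ⟨ε, hε, n₀, h⟩ := asy' (d - q) q (δ / 2) (by linarith)
  obtain ⟨n₁, hc⟩ := WtU_cmp d (δ / 2) (by linarith)
  refine ⟨ε, hε, max n₀ (n₁ + 1), fun K e he a b ha hb hn hab => ?_⟩
  have hn0 : n₀ ≤ a + b := (le_max_left _ _).trans hn
  have hn1 : n₁ + 1 ≤ a + b := (le_max_right _ _).trans hn
  have h4 := h a b (by omega) (by omega) hn0 hab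
  rw [Nat.sub_add_cancel hqd] at h4
  have hE : (0 : ℝ) ≤ (ell (a + b - 1) (d + 1) : ℝ) := Nat.cast_nonneg _
  by_cases hKb : K + 2 ≤ b
  · have hB : BK e d a b q = Nat.multichoose a (d - q) * WtUS e (Nat.multichoose (b - K)) q := by
      unfold BK
      rw [if_pos hKb, WtU_ND]
    have h5 := hc (a + b - 1) (by omega) a (b - K) (d - q) q K e he (by omega) (by omega) (by omega)
    rw [show b - K + K = b by omega] at h5
    rw [hB]
    rw [abs_le] at h4 h5 ⊢
    constructor <;> linarith [h4.1, h4.2, h5.1, h5.2]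
  · have hB : BK e d a b q = Nat.multichoose a (d - q) * Nat.multichoose b q := by
      unfold BK
      rw [if_neg hKb]
      rfl
    rw [hB]
    refine h4.trans (mul_le_mul_of_nonneg_right (by linarith) hE)

theorem asy_WU (Kf : ℕ → ℕ) (ef : ∀ n, Fin (Kf n) → ℕ) (he : ∀ n s, 1 ≤ ef n s) :
    AsyW fun a b => WK (ef (a + b)) a b := by
  intro p q δ hδ
  obtain ⟨ε, hε, n₀, h⟩ := WtU_asyW p q δ hδ
  exact ⟨ε, hε, n₀, fun a b ha hb hn hab => h _ _ (he _) a b ha hb hn hab⟩

theorem asy_BU (Kf : ℕ → ℕ) (ef : ∀ n, Fin (Kf n) → ℕ) (he : ∀ n s, 1 ≤ ef n s) (d : ℕ) :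
    AsyB d fun a b => BK (ef (a + b)) d a b := by
  intro q hqd δ hδ
  obtain ⟨ε, hε, n₀, h⟩ := WtU_asyB d q hqd δ hδ
  exact ⟨ε, hε, n₀, fun a b ha hb hn hab => h _ _ (he _) a b ha hb hn hab⟩

/-! ### The piece `0` -/

/-- adding `K` variables changes `multichoose` by lower order terms -/
private theorem WtU_add (n v : ℕ) : ∀ K : ℕ, Nat.multichoose (n + K) v ≤
    Nat.multichoose n v + if 1 ≤ v then K * Nat.multichoose (n + K) (v - 1) else 0 := by
  intro K
  induction K with
  | zero => simp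
  | succ K ih =>
    rcases v with _ | v
    · simp
    · rw [if_pos (by omega), Nat.add_sub_cancel] at ih ⊢
      rw [← Nat.add_assoc, Nat.multichoose_succ_succ]
      have h1 : K * Nat.multichoose (n + K) v ≤ K * Nat.multichoose (n + K + 1) v :=
        Nat.mul_le_mul_left _ (WtU_mcl _ _)
      have h2 : (K + 1) * Nat.multichoose (n + K + 1) v =
          K * Nat.multichoose (n + K + 1) v + Nat.multichoose (n + K + 1) v := by ring
      omega

/-- `K` times the terms of smaller degree, for `K ≤ δ (N + 1)` -/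
private theorem WtU_small1 {k N v w s t K : ℕ} {δ : ℝ} (hδ : 0 ≤ δ)
    (hK : (K : ℝ) ≤ δ * (N + 1 : ℕ)) (hv : v + w ≤ N + 1) (hs : s + t + 1 = k) :
    ((K * (Nat.multichoose v s * Nat.multichoose w t) : ℕ) : ℝ) ≤
      δ * k * (ell N (k + 1) : ℝ) := by
  have hk : 1 ≤ k := by omega
  have h1 := WtU_mono (n := N) (k := k - 1) hv (show s + t ≤ k - 1 by omega)
  rw [← WtU_ell, show k - 1 + 1 = k by omega] at h1
  have h2 := WtU_ratio (n := N) hk
  have h3 : (N + 1) * ell N k ≤ k * ell N (k + 1) := by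
    calc (N + 1) * ell N k ≤ (k + N) * ell N k := Nat.mul_le_mul_right _ (by omega)
      _ = ell N k * (k + N) := Nat.mul_comm _ _
      _ = ell N (k + 1) * k := h2
      _ = k * ell N (k + 1) := Nat.mul_comm _ _
  have h4 : ((K * (Nat.multichoose v s * Nat.multichoose w t) : ℕ) : ℝ) ≤
      (K : ℝ) * (ell N k : ℝ) := by exact_mod_cast Nat.mul_le_mul_left K h1
  have h5 : ((N + 1 : ℕ) : ℝ) * (ell N k : ℝ) ≤ (k : ℝ) * (ell N (k + 1) : ℝ) := by
    exact_mod_cast h3
  calc ((K * (Nat.multichoose v s * Nat.multichoose w t) : ℕ) : ℝ)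
      ≤ (K : ℝ) * (ell N k : ℝ) := h4
    _ ≤ (δ * (N + 1 : ℕ)) * (ell N k : ℝ) := mul_le_mul_of_nonneg_right hK (Nat.cast_nonneg _)
    _ = δ * (((N + 1 : ℕ) : ℝ) * (ell N k : ℝ)) := by ring
    _ ≤ δ * ((k : ℝ) * (ell N (k + 1) : ℝ)) := mul_le_mul_of_nonneg_left h5 hδ
    _ = δ * k * (ell N (k + 1) : ℝ) := by ring

theorem asy_W0U (Kf : ℕ → ℕ) (hK : Sml Kf) : AsyW fun a b => W0 (Kf (a + b)) a b := by
  intro p q δ hδ
  obtain ⟨ε, hε, n₀, h⟩ := asy p q (δ / 2) (by linarith)
  obtain ⟨n₁, hK1⟩ := hK (δ / 2 / ((p + q : ℕ) + 1)) (by positivity)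
  refine ⟨ε, hε, max n₀ (n₁ + 1), fun a b ha hb hn hab => ?_⟩
  have hn0 : n₀ ≤ a + b := (le_max_left _ _).trans hn
  have hn1 : n₁ + 1 ≤ a + b := (le_max_right _ _).trans hn
  have h4 := h a b (by omega) (by omega) hn0 hab
  have hE : (0 : ℝ) ≤ (ell (a + b - 1) (p + q + 1) : ℝ) := Nat.cast_nonneg _
  have hK2 := hK1 (a + b) (by omega)
  show |(W0 (Kf (a + b)) a b (p, q) : ℝ) - _| ≤ _
  generalize Kf (a + b) = K at hK2 ⊢
  by_cases hKb : K + 2 ≤ b
  · have hW : W0 K a b (p, q) = Nat.multichoose (a - 1) p * Nat.multichoose (b - 1 - K) q := by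
      unfold W0
      rw [if_pos hKb, WtU_w0]
    -- the difference
    have h5 : |((Nat.multichoose (a - 1) p * Nat.multichoose (b - 1) q : ℕ) : ℝ) -
        ((Nat.multichoose (a - 1) p * Nat.multichoose (b - 1 - K) q : ℕ) : ℝ)| ≤
        δ / 2 * (ell (a + b - 1) (p + q + 1) : ℝ) := by
      have h6 : Nat.multichoose (b - 1 - K) q ≤ Nat.multichoose (b - 1) q := by
        have h2 : Monotone fun m => Nat.multichoose m q :=
          monotone_nat_of_le_succ fun m => WtU_mcl m _
        exact h2 (Nat.sub_le _ _)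
      have h7 : ((Nat.multichoose (a - 1) p * Nat.multichoose (b - 1 - K) q : ℕ) : ℝ) ≤
          ((Nat.multichoose (a - 1) p * Nat.multichoose (b - 1) q : ℕ) : ℝ) := by
        exact_mod_cast Nat.mul_le_mul_left _ h6
      rw [abs_of_nonneg (by linarith)]
      have h3 := WtU_add (b - 1 - K) q K
      rw [show b - 1 - K + K = b - 1 by omega] at h3
      rcases Nat.eq_zero_or_pos q with hq | hq
      · rw [if_neg (by omega), Nat.add_zero] at h3
        have h8 : ((Nat.multichoose (a - 1) p * Nat.multichoose (b - 1) q : ℕ) : ℝ) ≤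
            ((Nat.multichoose (a - 1) p * Nat.multichoose (b - 1 - K) q : ℕ) : ℝ) := by
          exact_mod_cast Nat.mul_le_mul_left _ h3
        have h9 : 0 ≤ δ / 2 * (ell (a + b - 1) (p + q + 1) : ℝ) := by positivity
        linarith
      · have hq1 : 1 ≤ q := hq
        rw [if_pos hq1] at h3
        have h8 : ((Nat.multichoose (a - 1) p * Nat.multichoose (b - 1) q : ℕ) : ℝ) ≤
            ((Nat.multichoose (a - 1) p * Nat.multichoose (b - 1 - K) q : ℕ) : ℝ) +
              ((K * (Nat.multichoose (a - 1) p * Nat.multichoose (b - 1) (q - 1)) : ℕ) : ℝ) := by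
          have h9 := Nat.mul_le_mul_left (Nat.multichoose (a - 1) p) h3
          have h10 : Nat.multichoose (a - 1) p * (Nat.multichoose (b - 1 - K) q +
              K * Nat.multichoose (b - 1) (q - 1)) =
              Nat.multichoose (a - 1) p * Nat.multichoose (b - 1 - K) q +
                K * (Nat.multichoose (a - 1) p * Nat.multichoose (b - 1) (q - 1)) := by ring
          rw [h10] at h9
          exact_mod_cast h9
        have h9 := WtU_small1 (k := p + q) (N := a + b - 1) (v := a - 1) (w := b - 1) (s := p)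
          (t := q - 1) (K := K) (δ := δ / 2 / ((p + q : ℕ) + 1)) (by positivity)
          (by rw [show a + b - 1 + 1 = a + b by omega]; exact hK2) (by omega) (by omega)
        have h10 : δ / 2 / (((p + q : ℕ) : ℝ) + 1) * ((p + q : ℕ) : ℝ) ≤ δ / 2 := by
          have h11 : (0 : ℝ) ≤ ((p + q : ℕ) : ℝ) := Nat.cast_nonneg _
          rw [div_mul_eq_mul_div, div_le_iff₀ (by positivity)]
          nlinarith
        have h11 := mul_le_mul_of_nonneg_right h10 hE
        linarith
    rw [hW]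
    rw [abs_le] at h4 h5 ⊢
    constructor <;> linarith [h4.1, h4.2, h5.1, h5.2]
  · have hW : W0 K a b (p, q) = Nat.multichoose (a - 1) p * Nat.multichoose (b - 1) q := by
      unfold W0
      rw [if_neg hKb]
      rfl
    rw [hW]
    refine h4.trans (mul_le_mul_of_nonneg_right (by linarith) hE)

end Pool.Agent.LU
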