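import Pool.Agent.LK.Core
import Pool.Agent.LU.Cnt
import Pool.Agent.LU.Wts
import Pool.Agent.LU.Share

/-!
# LU7: the core theorem for a family
-/

set_option autoImplicit false

namespace Pool.Agent.LU

open Finset MvPolynomial Pool.Agent.H18.Ex Pool.Agent.H21.NX Pool.Agent.H18.Ta Pool.Agent.H51.TB
  Pool.Agent.H21.TC Pool.Agent.V7.ST Pool.Agent.LK

private theorem Core_sum_replicate (d : ℕ) (T : Multiset ℕ) (hT : ∀ m ∈ T, m ≤ d) :
    ∑ m ∈ range (d + 1), Multiset.replicate (T.count m) m = T := by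
  ext x
  rw [Multiset.count_sum']
  simp only [Multiset.count_replicate]
  by_cases hx : x ∈ T
  · have h1 : x ∈ range (d + 1) := mem_range.2 (Nat.lt_succ_of_le (hT x hx))
    rw [Finset.sum_ite_eq' (range (d + 1)) x (fun m => T.count m), if_pos h1]
  · rw [Multiset.count_eq_zero_of_notMem hx]
    apply Finset.sum_eq_zero
    intro m _
    split_ifs with h
    · rw [h]
      exact Multiset.count_eq_zero_of_notMem hx
    · rfl

private theorem Core_sum_tot (w : ℕ → ℕ) (d : ℕ) (T : Multiset ℕ) (hT : ∀ m ∈ T, m ≤ d) :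
    ∑ m ∈ range (d + 1), T.count m * w m = (T.map w).sum := by
  rw [Finset.sum_multiset_map_count]
  symm
  have h1 : T.toFinset ⊆ range (d + 1) := by
    intro x hx
    exact mem_range.2 (Nat.lt_succ_of_le (hT x (Multiset.mem_toFinset.1 hx)))
  refine (Finset.sum_subset h1 ?_).trans ?_
  · intro x _ hx
    rw [Multiset.mem_toFinset] at hx
    rw [Multiset.count_eq_zero_of_notMem hx, zero_smul]
  · exact Finset.sum_congr rfl fun m _ => smul_eq_mul _ _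

/-- The next degree. -/
theorem ell_next (r c : ℕ) : ell r (c + 2) * (c + 1) = (c + 1 + r) * ell r (c + 1) := by
  unfold ell
  rw [show c + 2 + r - 1 = (c + r) + 1 by omega, show c + 1 + r - 1 = c + r by omega]
  have h1 : (c + r + 1).choose r = (c + r + 1).choose (c + 1) := by
    rw [← Nat.choose_symm (show r ≤ c + r + 1 by omega)]
    congr 1
    omega
  have h2 : (c + r).choose r = (c + r).choose c := by
    rw [← Nat.choose_symm (show r ≤ c + r by omega)]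
    congr 1
    omega
  rw [h1, h2, ← Nat.add_one_mul_choose_eq (c + r) c, show c + 1 + r = c + r + 1 by omega]

/-- `K` dimensions less. -/
theorem ell_sub_ge (d : ℕ) : ∀ δ : ℝ, 0 < δ → ∃ δ' : ℝ, 0 < δ' ∧ ∃ r₀ : ℕ, ∀ r K : ℕ, r₀ ≤ r →
    (K : ℝ) ≤ δ' * r → K + 1 ≤ r ∧ (ell r (d + 1) : ℝ) ≤ (1 + δ) * (ell (r - K) (d + 1) : ℝ) := by
  induction d with
  | zero =>
    intro δ hδ
    refine ⟨1 / 2, by norm_num, 2, fun r K hr hK => ?_⟩
    have h1 : K + 1 ≤ r := by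
      have h2 : (2 * K : ℝ) ≤ r := by linarith
      have h3 : 2 * K ≤ r := by exact_mod_cast h2
      omega
    refine ⟨h1, ?_⟩
    rw [Nat.zero_add, ell_one, ell_one, Nat.cast_one]
    linarith
  | succ d ih =>
    intro δ hδ
    obtain ⟨t, ht⟩ : ∃ t, t = min (δ / 3) 1 := ⟨_, rfl⟩
    have ht0 : 0 < t := ht ▸ lt_min (by linarith) one_pos
    have ht1 : t ≤ 1 := ht ▸ min_le_right _ _
    have ht2 : t ≤ δ / 3 := ht ▸ min_le_left _ _
    obtain ⟨δ₁, hδ₁, r₁, h₁⟩ := ih t ht0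
    refine ⟨min δ₁ (t / 2), lt_min hδ₁ (by linarith), r₁, fun r K hr hK => ?_⟩
    have hr0 : (0 : ℝ) ≤ (r : ℝ) := Nat.cast_nonneg _
    obtain ⟨h2, h3⟩ := h₁ r K hr (hK.trans (mul_le_mul_of_nonneg_right (min_le_left _ _) hr0))
    refine ⟨h2, ?_⟩
    have hK2 : (K : ℝ) ≤ t / 2 * r :=
      hK.trans (mul_le_mul_of_nonneg_right (min_le_right _ _) hr0)
    have e1 : (ell r (d + 2) : ℝ) * ((d : ℝ) + 1) = ((d : ℝ) + 1 + r) * (ell r (d + 1) : ℝ) := by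
      exact_mod_cast ell_next r d
    have e2 : (ell (r - K) (d + 2) : ℝ) * ((d : ℝ) + 1) =
        ((d : ℝ) + 1 + ((r - K : ℕ) : ℝ)) * (ell (r - K) (d + 1) : ℝ) := by
      exact_mod_cast ell_next (r - K) d
    have e3 : ((r - K : ℕ) : ℝ) = (r : ℝ) - K := by
      rw [Nat.cast_sub (by omega)]
    have e4 : (d : ℝ) + 1 + r ≤ (1 + t) * ((d : ℝ) + 1 + ((r - K : ℕ) : ℝ)) := by
      rw [e3]
      have hK0 : (0 : ℝ) ≤ (K : ℝ) := Nat.cast_nonneg _
      have hd0 : (0 : ℝ) ≤ (d : ℝ) := Nat.cast_nonneg _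
      have h4 : (1 + t) * K ≤ 2 * K := mul_le_mul_of_nonneg_right (by linarith) hK0
      have h5 : 0 ≤ t * ((d : ℝ) + 1) := by positivity
      nlinarith
    have e5 : (0 : ℝ) ≤ (ell (r - K) (d + 1) : ℝ) := Nat.cast_nonneg _
    have e6 : (0 : ℝ) ≤ (d : ℝ) + 1 + r := by positivity
    have e7 : (ell r (d + 2) : ℝ) * ((d : ℝ) + 1) ≤
        ((1 + δ) * (ell (r - K) (d + 2) : ℝ)) * ((d : ℝ) + 1) := by
      calc (ell r (d + 2) : ℝ) * ((d : ℝ) + 1) = ((d : ℝ) + 1 + r) * (ell r (d + 1) : ℝ) := e1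
        _ ≤ ((d : ℝ) + 1 + r) * ((1 + t) * (ell (r - K) (d + 1) : ℝ)) :=
            mul_le_mul_of_nonneg_left h3 e6
        _ ≤ ((1 + t) * ((d : ℝ) + 1 + ((r - K : ℕ) : ℝ))) * ((1 + t) * (ell (r - K) (d + 1) : ℝ)) :=
            mul_le_mul_of_nonneg_right e4 (by positivity)
        _ = (1 + t) * (1 + t) * ((ell (r - K) (d + 2) : ℝ) * ((d : ℝ) + 1)) := by
            rw [e2]
            ring
        _ ≤ (1 + δ) * ((ell (r - K) (d + 2) : ℝ) * ((d : ℝ) + 1)) := by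
            refine mul_le_mul_of_nonneg_right ?_ (by positivity)
            nlinarith
        _ = ((1 + δ) * (ell (r - K) (d + 2) : ℝ)) * ((d : ℝ) + 1) := by ring
    exact le_of_mul_le_mul_right e7 (by positivity)

/-- The weights for `K + 2 ≤ b`. -/
private theorem Core_WK {K a b : ℕ} (hb : K + 2 ≤ b) (e : Fin K → ℕ) :
    WK e a b = WD a b (Box e) := by
  funext g
  unfold WK
  rw [if_pos hb]

private theorem Core_W0 {K a b : ℕ} (hb : K + 2 ≤ b) :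
    W0 K a b = wk a b (0 : Fin K → ℕ) := by
  funext g
  unfold W0
  rw [if_pos hb]

private theorem Core_BK {K a b d j : ℕ} (hb : K + 2 ≤ b) (e : Fin K → ℕ) :
    BK e d a b j = ND a b d j (Box e) := by
  unfold BK
  rw [if_pos hb]

/-- The core theorem. -/
private theorem Core_one (d : ℕ) (Kf : ℕ → ℕ) (ef : ∀ n, Fin (Kf n) → ℕ)
    (hef : ∀ n s, 1 ≤ ef n s ∧ ef n s ≤ d) (hKf : Sml Kf) (η : ℝ) (hη : 0 < η) :
    ∃ r₀ : ℕ, ∀ r : ℕ, r₀ ≤ r → ∀ (K : ℕ) (e : Fin K → ℕ),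
    (⟨K, e⟩ : Σ K : ℕ, Fin K → ℕ) = ⟨Kf (r + 1), ef (r + 1)⟩ →
    ∀ (μ : ℕ) (S : Multiset ℕ), 1 ≤ μ →
    μ + (d + 1) / 2 ≤ d → (∀ m ∈ S, 1 ≤ m ∧ m ≤ (d + 1) / 2) →
    cnk r K e (d + 1) ≤ (S.map (cnk r K e)).sum →
    η * (ell r (d + 1) : ℝ) ≤ ((S.count μ * ell r μ : ℕ) : ℝ) →
    GM (Sx (Fin (r + 1)) d) (((univ : Finset (Fin K)).val.map (fun s => d - e s) + S).map
      Kind.free) := by
  obtain ⟨M, hM⟩ : ∃ M, M = (d + 1) / 2 := ⟨_, rfl⟩
  obtain ⟨R, hR⟩ : ∃ R, R = RU d := ⟨_, rfl⟩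
  obtain ⟨κ, hκ, hnum⟩ := numC d (min η (1 / 8)) (lt_min hη (by norm_num))
    (fun a b => WK (ef (a + b)) a b)
    (fun a b ha hb => isWt_WK ha hb fun s => (hef _ s).1) (asy_WU Kf ef fun n s => (hef n s).1)
    (fun a b => BK (ef (a + b)) d a b) (asy_BU Kf ef (fun n s => (hef n s).1) d)
  obtain ⟨ε₁, hε₁, n₁, hmass⟩ := massC d (2 * R) κ hκ (fun a b => W0 (Kf (a + b)) a b)
    (asy_W0U Kf hKf)
  obtain ⟨δ₂, hδ₂, ε₂, hε₂, n₂, hsh⟩ := shareU d R κ hκ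
  obtain ⟨n₅, hn₅⟩ := hKf δ₂ hδ₂
  obtain ⟨n₃, hnum⟩ := hnum (min ε₁ ε₂) (lt_min hε₁ hε₂)
  obtain ⟨δ₄, hδ₄, n₄, hone⟩ := ell_sub_ge d 1 one_pos
  obtain ⟨n₆, hn₆⟩ := hKf (δ₄ / 2) (by linarith)
  refine ⟨n₁ + n₂ + n₃ + n₄ + n₅ + n₆ + d + 2, fun r hr K e hKe μ S hμ hμd hS hN hη' => ?_⟩
  obtain ⟨a, b, ha, hb, hab, hclose, hnum⟩ := hnum (r + 1) (by omega)
  have habr : a + b - 1 = r := by omega
  rw [← hab] at hKe
  cases hKe
  have he : ∀ s, 1 ≤ ef (a + b) s ∧ ef (a + b) s ≤ d := hef (a + b)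
  have hK1 : ((Kf (a + b) : ℕ) : ℝ) ≤ δ₂ * (a + b : ℕ) := hn₅ (a + b) (by omega)
  have hK2 : ((Kf (a + b) : ℕ) : ℝ) ≤ δ₄ * (r : ℕ) := by
    have h1 := hn₆ (a + b) (by omega)
    have h2 : ((a + b : ℕ) : ℝ) ≤ 2 * (r : ℝ) := by exact_mod_cast (by omega : a + b ≤ 2 * r)
    have h3 := mul_le_mul_of_nonneg_left h2 (by linarith : (0 : ℝ) ≤ δ₄ / 2)
    linarith
  have hcl1 : |(a : ℝ) - b| ≤ ε₁ * (a + b : ℕ) :=
    hclose.trans (mul_le_mul_of_nonneg_right (min_le_left _ _) (Nat.cast_nonneg _))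
  have hcl2 : |(a : ℝ) - b| ≤ ε₂ * (a + b : ℕ) :=
    hclose.trans (mul_le_mul_of_nonneg_right (min_le_right _ _) (Nat.cast_nonneg _))
  obtain ⟨hbK, hsh⟩ := hsh a b (Kf (a + b)) ha hb (by omega) hcl2 hK1
  have hM1 : μ ≤ M := by omega
  have hμM : μ + M ≤ d := by omega
  have he1 : ∀ s, 1 ≤ ef (a + b) s := fun s => (he s).1
  have hcnk : ∀ v, cnk r (Kf (a + b)) (ef (a + b)) v ≤ ell r v := fun v => by
    have := cnk_le ha hbK (ef (a + b)) he1 v
    rwa [habr] at this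
  -- the part `T` of `S`
  have hNlow : ell r (d + 1) ≤ 2 * cnk r (Kf (a + b)) (ef (a + b)) (d + 1) := by
    have h1 := (hone r (Kf (a + b)) (by omega) hK2).2
    have h2 := ell_sub_le_cnk r (Kf (a + b)) d (ef (a + b))
    have h3 : (ell r (d + 1) : ℝ) ≤ 2 * (ell (r - Kf (a + b)) (d + 1) : ℝ) := by
      refine h1.trans (le_of_eq ?_)
      norm_num
    have h4 : ell r (d + 1) ≤ 2 * ell (r - Kf (a + b)) (d + 1) := by exact_mod_cast h3
    omega
  obtain ⟨T, hTS, hT1, hT2, hT3⟩ := choose_part (cnk r (Kf (a + b)) (ef (a + b))) (ell r d) (cnk r (Kf (a + b)) (ef (a + b)) (d + 1)) 0 μ S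
    (fun m hm => (hcnk m).trans (ell_mono r (by have := hS m hm; omega))) (by omega)
    (by rw [Nat.zero_add]; exact hN)
  rw [Nat.zero_add] at hT1 hT2
  have hTm : ∀ m ∈ T, 1 ≤ m ∧ m ≤ M := fun m hm => by
    have := hS m (Multiset.mem_of_le hTS hm)
    omega
  have hTd : ∀ m ∈ T, m ≤ d := fun m hm => by have := hTm m hm; omega
  have hlw : ∀ m, lamw m (WK (ef (a + b)) a b) = cnk r (Kf (a + b)) (ef (a + b)) m := fun m => by
    rw [lamw_WK (by omega) hbK, habr]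
  have hB : ∑ i ∈ range (d + 1), BK (ef (a + b)) d a b i = cnk r (Kf (a + b)) (ef (a + b)) (d + 1) := by
    rw [sum_BK (by omega) hbK, habr]
  have hsum' : ∑ m ∈ range (d + 1), T.count m * lamw m (WK (ef (a + b)) a b) =
      (T.map (cnk r (Kf (a + b)) (ef (a + b)))).sum := by
    rw [← Core_sum_tot (cnk r (Kf (a + b)) (ef (a + b))) d T hTd]
    exact Finset.sum_congr rfl fun m _ => by rw [hlw]
  have hdom : min η (1 / 8) * (ell r (d + 1) : ℝ) ≤ ((T.count μ * ell r μ : ℕ) : ℝ) := by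
    have h0 : (0 : ℝ) ≤ (ell r (d + 1) : ℝ) := Nat.cast_nonneg _
    rcases hT3 with h | h
    · rw [h]
      exact (mul_le_mul_of_nonneg_right (min_le_left _ _) h0).trans hη'
    · have h5 : ell r (d + 1) ≤ 8 * (T.count μ * ell r μ) := by
        have h7 : T.count μ * cnk r (Kf (a + b)) (ef (a + b)) μ ≤ T.count μ * ell r μ :=
          Nat.mul_le_mul_left _ (hcnk μ)
        omega
      have h5' : (ell r (d + 1) : ℝ) ≤ 8 * ((T.count μ * ell r μ : ℕ) : ℝ) := by exact_mod_cast h5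
      have h6 := mul_le_mul_of_nonneg_right (min_le_right η (1 / 8)) h0
      linarith
  have hA : ∀ m, T.count m ≠ 0 → 1 ≤ m ∧ m ≤ M ∧ m + M ≤ d + 1 := fun m hm => by
    have := hTm m (Multiset.count_ne_zero.1 hm)
    omega
  obtain ⟨c, hc, k1, k2, k3⟩ := hnum M μ (fun m => T.count m) hμ hM1 hμM hA
    (by rw [hsum', hB]; exact hT1) (by rw [hsum', hB, habr]; exact hT2)
    (by rw [habr]; exact hdom)
  -- the masses
  obtain ⟨m1, m2⟩ := hmass a b ha hb (by omega) hcl1 M μ hμ hM1 hμM (c μ) k3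
  have hμr : μ ∈ range (d + 1) := mem_range.2 (by omega)
  have hsh' := hsh (ef (a + b)) μ c he hμ (by omega) k2 k3
  rw [← hM] at hsh'
  have hell : ell (a + b) M ≤ ell (a + b) (d + 1 - M) := ell_mono _ (by omega)
  have hGM := GM_of_counts_U (e := ef (a + b)) ha hbK (M := M) (μ := μ) (by omega) hμ hM1
    (fun s => (he s).2) R (le_of_eq hR.symm) (fun m => T.count m)
    (fun m hm => ⟨(hA m hm).1, (hA m hm).2.1⟩) c hc ?_ ?_ ?_ ?_
  · rw [Core_sum_replicate d T hTd] at hGM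
    have hGM2 := GM_equiv (finSumFinEquiv.trans (finCongr hab)) d _ hGM
    exact GM.mono (Multiset.map_le_map (add_le_add_right hTS _)) hGM2
  · intro j hj
    have h5 := k1 j hj
    rw [Core_BK hbK, Core_WK hbK] at h5
    exact h5
  · intro j hj t ht1 ht2
    have h5 := m1 j hj t ht1 ht2
    rw [Core_W0 hbK] at h5
    have h6 : R * (ell (a + b) (t + 1) * ell (a + b) M) ≤
        2 * R * (ell (a + b) (t + 1) * ell (a + b) M) := Nat.mul_le_mul_right _ (by omega)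
    refine (h6.trans h5).trans ?_
    exact single_le_sum (f := fun m => ∑ x ∈ KK d, if cls d m x j = t then
      c m x * wtw d m (wk a b (0 : Fin (Kf (a + b)) → ℕ)) x j else 0) (fun _ _ => Nat.zero_le _) hμr
  · intro j hj
    have h5 := m2 j hj
    rw [Core_W0 hbK] at h5
    have h6 : R * (2 * (ell (a + b) M * ell (a + b) M)) ≤
        2 * R * (ell (a + b) (d + 1 - M) * ell (a + b) M) := by
      calc R * (2 * (ell (a + b) M * ell (a + b) M)) =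
          2 * R * (ell (a + b) M * ell (a + b) M) := by ring
        _ ≤ _ := Nat.mul_le_mul_left _ (Nat.mul_le_mul_right _ hell)
    refine (h6.trans h5).trans ?_
    exact single_le_sum (f := fun m => ∑ x ∈ KK d, if cls d m x j = μ then
      c m x * wtw d m (wk a b (0 : Fin (Kf (a + b)) → ℕ)) x j else 0) (fun _ _ => Nat.zero_le _) hμr
  · exact hsh'

theorem core_U (d : ℕ) (Kf : ℕ → ℕ) (ef : ∀ n, Fin (Kf n) → ℕ)
    (he : ∀ n s, 1 ≤ ef n s ∧ ef n s ≤ d) (hK : Sml Kf) (η : ℝ) (hη : 0 < η) :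
    ∃ r₀ : ℕ, ∀ r : ℕ, r₀ ≤ r → ∀ (μ : ℕ) (S : Multiset ℕ), 1 ≤ μ →
    μ + (d + 1) / 2 ≤ d → (∀ m ∈ S, 1 ≤ m ∧ m ≤ (d + 1) / 2) →
    cnk r (Kf (r + 1)) (ef (r + 1)) (d + 1) ≤ (S.map (cnk r (Kf (r + 1)) (ef (r + 1)))).sum →
    η * (ell r (d + 1) : ℝ) ≤ ((S.count μ * ell r μ : ℕ) : ℝ) →
    GM (Sx (Fin (r + 1)) d) (((univ : Finset (Fin (Kf (r + 1)))).val.map
      (fun s => d - ef (r + 1) s) + S).map Kind.free) := by
  obtain ⟨r₀, h⟩ := Core_one d Kf ef he hK η hη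
  exact ⟨r₀, fun r hr => h r hr _ _ rfl⟩

end Pool.Agent.LU
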