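import Pool.Agent.LK.Defs

/-!
# Project LU: the number of large points is at most `δ r`, non-critical half

As project LK, but the sets of pieces are invariant under the permutations of the `J`-variables with
equal `e`.  `tau e k` is the multiset of the pairs `(e s, k s)`; two pieces have the same `tau` if and
only if they differ by such a permutation.
-/

set_option autoImplicit false

namespace Pool.Agent.LU

open Finset Pool.Agent.LK

/-- The type of a piece. -/
def tau {K : ℕ} (e k : Fin K → ℕ) : Multiset (ℕ × ℕ) :=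
  (univ : Finset (Fin K)).val.map fun s => (e s, k s)

/-- Invariant sets of pieces. -/
def Inv {K : ℕ} (e : Fin K → ℕ) (D : Finset (Fin K → ℕ)) : Prop :=
  ∀ k ∈ D, ∀ k' : Fin K → ℕ, tau e k' = tau e k → k' ∈ D

/-- The pieces of the type of `k` are removed. -/
def del {K : ℕ} (e : Fin K → ℕ) (D : Finset (Fin K → ℕ)) (k : Fin K → ℕ) : Finset (Fin K → ℕ) :=
  D.filter fun k' => tau e k' ≠ tau e k

/-- The number of types in `D`. -/
def rkD {K : ℕ} (e : Fin K → ℕ) (D : Finset (Fin K → ℕ)) : ℕ := (D.image (tau e)).card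

/-- A bound for the number of types of pieces of degree at most `d`. -/
def RU (d : ℕ) : ℕ := (d + 1) ^ ((d + 1) * (d + 1))

/-- Families of numbers with `K n = o(n)`. -/
def Sml (Kf : ℕ → ℕ) : Prop :=
  ∀ δ : ℝ, 0 < δ → ∃ n₀ : ℕ, ∀ n : ℕ, n₀ ≤ n → (Kf n : ℝ) ≤ δ * n

end Pool.Agent.LU
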