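import Pool.Agent.LU.Final
import Pool.Agent.V8.End.Fin

/-!
# LU9: the exact dimension if the number of large points is at most `δ r`
-/

set_option autoImplicit false

namespace Pool.Agent.LU

open Finset MvPolynomial Pool.Agent.H18.Fat Pool.Agent.H21.HD Pool.Agent.H21.NX Pool.Agent.V8
open Pool.Agent.H18.Ex (Kind ell GM)
open Pool.Agent.H21.NX.GenBX (gdim_attained)

/-- The exact dimension if at most `δ r` points are large (`d ≥ 2`). -/
theorem exact_lin (d : ℕ) (hd2 : 2 ≤ d) (η : ℝ) (hη : 0 < η) : ∃ δ : ℝ, 0 < δ ∧ ∃ r₀ : ℕ,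
    ∀ r, r₀ ≤ r → ∀ (k : ℕ) (m : Fin k → ℕ), (∀ i, 1 ≤ m i ∧ m i + 1 ≤ d) →
      (((univ.filter fun i => d + 1 < 2 * m i).card : ℕ) : ℝ) ≤ δ * r →
      ((((univ.filter fun i => 2 * m i = d + 1).card * ell r ((d + 1) / 2) : ℕ) : ℝ) ≤
        (1 - η) * (ell r (d + 1) : ℝ) ∨ d % 2 = 0) →
      ForGeneralPoints r k fun p => (Module.finrank ℂ (fatForms r d p m) : ℤ) =
        max (fro r (fun i => d + 1 - m i) univ d) 0 := by
  classical
  obtain ⟨δ, hδ, r₀, h₀⟩ := noncritU d η hη
  obtain ⟨δ', hδ', hδδ, hδ1⟩ : ∃ δ' : ℝ, 0 < δ' ∧ δ' ≤ δ ∧ δ' ≤ 1 :=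
    ⟨min δ 1, lt_min hδ one_pos, min_le_left _ _, min_le_right _ _⟩
  refine ⟨δ', hδ', r₀ + 1, fun r hr k m hm hcard hcrit => ?_⟩
  have hr0 : (0 : ℝ) ≤ (r : ℝ) := Nat.cast_nonneg _
  have hcard1 : (univ.filter fun i => d + 1 < 2 * m i).card ≤ r := by
    have h1 := hcard.trans (mul_le_mul_of_nonneg_right hδ1 hr0)
    rw [one_mul] at h1
    exact_mod_cast h1
  have hm' : ∀ i, 1 ≤ m i ∧ m i ≤ d := fun i => by
    have := hm i
    omega
  obtain ⟨I, hI⟩ : ∃ I : Finset (Fin k), I = univ.filter fun i => d + 1 < 2 * m i := ⟨_, rfl⟩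
  rw [← hI] at hcard hcard1
  have hnI : ∀ i, i ∉ I → 2 * m i ≤ d + 1 := by
    intro i hi
    rw [hI, mem_filter, not_and, not_lt] at hi
    exact hi (mem_univ i)
  have hp : ∀ i j, i ≠ j → i ∉ I → j ∉ I → m i + m j ≤ d + 1 := by
    intro i j _ hi hj
    have := hnI i hi
    have := hnI j hj
    omega
  obtain ⟨X, hX⟩ : ∃ X : ℕ, X = (fro r (fun i => d + 1 - m i) univ d).toNat := ⟨_, rfl⟩
  obtain ⟨J, hJ⟩ : ∃ J : Fin I.card → ℕ, J = fun i => m (I.equivFin.symm i) := ⟨_, rfl⟩
  have hJ1 : ∀ i, 1 ≤ J i ∧ J i ≤ d := by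
    intro i
    rw [hJ]
    exact hm' _
  have hfro := fro_eq_NJ r d k m I (by omega) hm' hp
  rw [← hJ] at hfro
  obtain ⟨S, hS⟩ : ∃ S : Multiset ℕ, S = Iᶜ.val.map m + Multiset.replicate X 1 := ⟨_, rfl⟩
  have hkill := h₀ r (by omega) I.card (hcard.trans (mul_le_mul_of_nonneg_right hδδ hr0)) J
      (fun i => by rw [hJ]; exact hm _) S (by
    intro x hx
    rw [hS, Multiset.mem_add] at hx
    rcases hx with hx | hx
    · obtain ⟨i, hi, rfl⟩ := Multiset.mem_map.1 hx
      have hi' : i ∈ Iᶜ := hi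
      rw [Finset.mem_compl] at hi'
      exact ⟨(hm i).1, hnI i hi'⟩
    · rw [Multiset.eq_of_mem_replicate hx]
      omega) (by
    intro M hM
    rcases hcrit with hcrit | hcrit
    · have h1 : S.count M = (univ.filter fun i => 2 * m i = d + 1).card := by
        rw [hS, Multiset.count_add, Multiset.count_replicate, if_neg (by omega), Nat.add_zero,
          Multiset.count_map]
        have h2 : Multiset.filter (fun i => M = m i) Iᶜ.val =
            (univ.filter fun i => 2 * m i = d + 1).val := by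
          have h3 : (univ.filter fun i => 2 * m i = d + 1) = Iᶜ.filter fun i => M = m i := by
            ext i
            rw [mem_filter, mem_filter, mem_compl]
            constructor
            · rintro ⟨-, h4⟩
              refine ⟨?_, by omega⟩
              rw [hI, mem_filter]
              rintro ⟨-, h5⟩
              omega
            · rintro ⟨-, h4⟩
              exact ⟨mem_univ _, by omega⟩
          rw [h3]
          rfl
        rw [h2]
        rfl
      have h2 : (d + 1) / 2 = M := by omega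
      rw [h1, ← h2]
      exact hcrit
    · omega)
  have hGM := hkill (by
    rw [hS, Multiset.map_add, Multiset.sum_add, Multiset.map_replicate, Multiset.sum_replicate,
      Multiset.map_map, smul_eq_mul]
    have h1 : ((Iᶜ.val.map ((fun m => NJ d J (r + 1) (m - 1)) ∘ m)).sum : ℕ) =
        ∑ i ∈ Iᶜ, NJ d J (r + 1) (m i - 1) := rfl
    rw [h1, Nat.sub_self, NJ_zero d J (fun i => (hJ1 i).2), mul_one]
    have h2 : ((∑ i ∈ Iᶜ, NJ d J (r + 1) (m i - 1) : ℕ) : ℤ) =
        ∑ i ∈ Iᶜ, (NJ d J (r + 1) (m i - 1) : ℤ) := Nat.cast_sum _ _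
    omega)
  have hGM' : GM (Sx (Fin (r + 1)) d) ((univ.val.map fun i => Kind.free (m i)) +
      Multiset.replicate X (Kind.free 1)) := by
    have h1 : ((univ : Finset (Fin I.card)).val.map J).map Kind.free =
        I.val.map fun i => (Kind.free (m i) : Kind (Fin (r + 1))) := by
      rw [Multiset.map_map, hJ]
      have h2 : (univ : Finset (Fin I.card)).val.map (fun i => (I.equivFin.symm i : Fin k)) =
          I.val := by
        have h3 := Multiset.map_univ_val_equiv I.equivFin.symm
        have h4 : (univ : Finset (Fin I.card)).val.map (fun i => (I.equivFin.symm i : Fin k)) =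
            ((univ : Finset (Fin I.card)).val.map I.equivFin.symm).map Subtype.val := by
          rw [Multiset.map_map]
          rfl
        rw [h4, h3, Finset.univ_eq_attach]
        exact Multiset.attach_map_val I.val
      conv_rhs => rw [← h2]
      rw [Multiset.map_map]
      rfl
    have h2 : S.map Kind.free = (Iᶜ.val.map fun i => (Kind.free (m i) : Kind (Fin (r + 1)))) +
        Multiset.replicate X (Kind.free 1) := by
      rw [hS, Multiset.map_add, Multiset.map_map, Multiset.map_replicate]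
      rfl
    have h3 : (univ : Finset (Fin k)).val = I.val + Iᶜ.val := by
      have h4 : (univ : Finset (Fin k)) = I.disjUnion Iᶜ disjoint_compl_right := by
        rw [Finset.disjUnion_eq_union, Finset.union_compl]
      rw [h4]
      rfl
    rw [h3, Multiset.map_add, ← h1, add_assoc, ← h2]
    exact hGM
  obtain ⟨p₀, hp₀⟩ := MaxGMX.special r k d X m hGM'
  refine ((general_finrank_le d p₀ m).and (lowK r d k (by omega) m I (by omega) hm' hp)).mono ?_
  rintro p ⟨hp1, hp2⟩
  omega

end Pool.Agent.LU
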