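import Pool.Agent.LK.Final
import Pool.Agent.LU.Core
import Pool.Agent.V8.End.Defs

/-!
# LU8: the non-critical half, uniform in the number of large points
-/

set_option autoImplicit false

namespace Pool.Agent.LU

open Finset MvPolynomial Pool.Agent.H18.Ex Pool.Agent.H21.NX Pool.Agent.H18.Ta Pool.Agent.H51.TB
  Pool.Agent.H21.TC Pool.Agent.V7.ST Pool.Agent.V8 Pool.Agent.LK

private theorem Kill_sum_tot (r d : ℕ) (T : Multiset ℕ) (hT : ∀ m ∈ T, m ≤ d) :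
    ∑ m ∈ range (d + 1), T.count m * ell r m = (T.map (ell r)).sum := by
  rw [Finset.sum_multiset_map_count]
  symm
  have h1 : T.toFinset ⊆ range (d + 1) := by
    intro x hx
    exact mem_range.2 (Nat.lt_succ_of_le (hT x (Multiset.mem_toFinset.1 hx)))
  refine (Finset.sum_subset h1 ?_).trans ?_
  · intro x _ hx
    rw [Multiset.mem_toFinset] at hx
    rw [Multiset.count_eq_zero_of_notMem hx, zero_smul]
  · exact Finset.sum_congr rfl fun m _ => smul_eq_mul _ _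

private theorem Kill_pigeon (r d : ℕ) (B : Multiset ℕ) (hB : ∀ m ∈ B, m ≤ d) (c : ℝ)
    (hc : c ≤ (((B.map (ell r)).sum : ℕ) : ℝ)) :
    ∃ μ, c ≤ ((d : ℝ) + 1) * ((B.count μ * ell r μ : ℕ) : ℝ) := by
  by_contra hcon
  push Not at hcon
  have h1 := Kill_sum_tot r d B hB
  have h2 : ∑ m ∈ range (d + 1), ((d : ℝ) + 1) * ((B.count m * ell r m : ℕ) : ℝ) <
      ∑ _m ∈ range (d + 1), c :=
    Finset.sum_lt_sum_of_nonempty ⟨0, by simp⟩ fun m _ => hcon m
  rw [← Finset.mul_sum, ← Nat.cast_sum, h1, Finset.sum_const, card_range, nsmul_eq_mul] at h2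
  push_cast at h2
  have h3 : (0 : ℝ) < (d : ℝ) + 1 := by positivity
  have h4 := lt_of_mul_lt_mul_left h2 h3.le
  push_cast at hc
  linarith

/-- The assertion for `K` large points of the multiplicities `d - e s`. -/
def Good (d : ℕ) (η : ℝ) (r : ℕ) (x : Σ K : ℕ, Fin K → ℕ) : Prop :=
  x.1 + 1 ≤ r ∧ ∀ S : Multiset ℕ, (∀ m ∈ S, 1 ≤ m ∧ 2 * m ≤ d + 1) →
    (∀ M, 2 * M = d + 1 →
      ((S.count M * ell r M : ℕ) : ℝ) ≤ (1 - η) * (ell r (d + 1) : ℝ)) →
    cnk r x.1 x.2 (d + 1) ≤ (S.map (cnk r x.1 x.2)).sum →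
    GM (Sx (Fin (r + 1)) d) (((univ : Finset (Fin x.1)).val.map (fun s => d - x.2 s) + S).map
      Kind.free)

/-- The non-critical half for a family. -/
private theorem Fin_fam (d : ℕ) (fam : ℕ → Σ K : ℕ, Fin K → ℕ)
    (hfam : ∀ n s, 1 ≤ (fam n).2 s ∧ (fam n).2 s ≤ d) (hK : Sml fun n => (fam n).1)
    (η : ℝ) (hη : 0 < η) : ∃ r₀ : ℕ, ∀ r : ℕ, r₀ ≤ r → Good d η r (fam (r + 1)) := by
  classical
  obtain ⟨δ, hδ⟩ : ∃ δ, δ = min η 1 := ⟨_, rfl⟩
  have hδ0 : 0 < δ := by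
    rw [hδ]
    exact lt_min hη one_pos
  have hδ1 : δ ≤ 1 := hδ ▸ min_le_right _ _
  have hδη : δ ≤ η := hδ ▸ min_le_left _ _
  obtain ⟨r₁, h₁⟩ := core_U d (fun n => (fam n).1) (fun n => (fam n).2) hfam hK
    (δ / (2 * (d + 1))) (by positivity)
  obtain ⟨δ₂, hδ₂, r₂, h₂⟩ := ell_sub_ge d (δ / 2) (by linarith)
  obtain ⟨r₃, h₃⟩ := hK (δ₂ / 2) (by linarith)
  refine ⟨r₁ + r₂ + r₃ + 1, fun r hr => ?_⟩
  have hK2 : (((fam (r + 1)).1 : ℕ) : ℝ) ≤ δ₂ * (r : ℕ) := by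
    have h1 := h₃ (r + 1) (by omega)
    have h2 : ((r + 1 : ℕ) : ℝ) ≤ 2 * (r : ℝ) := by exact_mod_cast (by omega : r + 1 ≤ 2 * r)
    have h3 := mul_le_mul_of_nonneg_left h2 (by linarith : (0 : ℝ) ≤ δ₂ / 2)
    linarith
  have h₁' := h₁ r (by omega)
  have hfam' := hfam (r + 1)
  generalize fam (r + 1) = x at hK2 h₁' hfam' ⊢
  obtain ⟨K, e⟩ := x
  obtain ⟨hKr, hratio⟩ := h₂ r K (by omega) hK2
  refine ⟨hKr, fun S hS hcrit hN' => ?_⟩
  obtain ⟨M, hM⟩ : ∃ M, M = (d + 1) / 2 := ⟨_, rfl⟩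
  -- the points which are not critical
  set B := S.filter fun m => m + M ≤ d with hB
  have hBS : B ≤ S := Multiset.filter_le _ _
  have hsplit : (S.map (cnk r K e)).sum ≤ (B.map (ell r)).sum +
      if 2 * M = d + 1 then S.count M * ell r M else 0 := by
    have h3 : S = B + S.filter (fun m => ¬ m + M ≤ d) := (Multiset.filter_add_not _ S).symm
    have h4 : S.filter (fun m => ¬ m + M ≤ d) = if 2 * M = d + 1 then
        Multiset.replicate (S.count M) M else 0 := by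
      split_ifs with h5
      · rw [← Multiset.filter_eq']
        refine Multiset.filter_congr fun m hm => ?_
        have := hS m hm
        omega
      · rw [Multiset.filter_eq_nil]
        intro m hm
        have := hS m hm
        omega
    have h5 : (B.map (cnk r K e)).sum ≤ (B.map (ell r)).sum :=
      Multiset.sum_map_le_sum_map _ _ fun m _ => cnk_le_ell hKr e m
    have h6 : (S.map (cnk r K e)).sum = (B.map (cnk r K e)).sum +
        ((S.filter fun m => ¬ m + M ≤ d).map (cnk r K e)).sum := by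
      conv_lhs => rw [h3]
      rw [Multiset.map_add, Multiset.sum_add]
    rw [h6, h4]
    refine Nat.add_le_add h5 ?_
    split_ifs with h7
    · rw [Multiset.map_replicate, Multiset.sum_replicate, smul_eq_mul]
      exact Nat.mul_le_mul_left _ (cnk_le_ell hKr e M)
    · simp
  have hlow : (1 - δ / 2) * (ell r (d + 1) : ℝ) ≤ (cnk r K e (d + 1) : ℝ) := by
    have h3 : (ell (r - K) (d + 1) : ℝ) ≤ (cnk r K e (d + 1) : ℝ) := by
      exact_mod_cast ell_sub_le_cnk r K d e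
    have h4 : (0 : ℝ) ≤ (ell (r - K) (d + 1) : ℝ) := Nat.cast_nonneg _
    have h5 : (1 - δ / 2) * (ell r (d + 1) : ℝ) ≤
        (1 - δ / 2) * ((1 + δ / 2) * (ell (r - K) (d + 1) : ℝ)) :=
      mul_le_mul_of_nonneg_left hratio (by linarith)
    have h6 : (1 - δ / 2) * ((1 + δ / 2) * (ell (r - K) (d + 1) : ℝ)) =
        (ell (r - K) (d + 1) : ℝ) - δ ^ 2 / 4 * (ell (r - K) (d + 1) : ℝ) := by ring
    have h7 : 0 ≤ δ ^ 2 / 4 * (ell (r - K) (d + 1) : ℝ) := by positivity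
    linarith
  have hB1 : δ / 2 * (ell r (d + 1) : ℝ) ≤ (((B.map (ell r)).sum : ℕ) : ℝ) := by
    have h3 : (cnk r K e (d + 1) : ℝ) ≤ (((B.map (ell r)).sum : ℕ) : ℝ) +
        ((if 2 * M = d + 1 then S.count M * ell r M else 0 : ℕ) : ℝ) := by
      exact_mod_cast hN'.trans hsplit
    have h4 : ((if 2 * M = d + 1 then S.count M * ell r M else 0 : ℕ) : ℝ) ≤
        (1 - δ) * (ell r (d + 1) : ℝ) := by
      have h0 : (0 : ℝ) ≤ (ell r (d + 1) : ℝ) := Nat.cast_nonneg _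
      split_ifs with h5
      · refine (hcrit M h5).trans ?_
        exact mul_le_mul_of_nonneg_right (by linarith) h0
      · rw [Nat.cast_zero]
        exact mul_nonneg (by linarith) h0
    linarith
  obtain ⟨μ, hμ⟩ := Kill_pigeon r d B (fun m hm => by
    have := hS m (Multiset.mem_of_le hBS hm)
    omega) _ hB1
  have hell : (0 : ℝ) < (ell r (d + 1) : ℝ) := by
    exact_mod_cast ell_pos r (by omega)
  have hμ' : δ / (2 * (d + 1)) * (ell r (d + 1) : ℝ) ≤ ((B.count μ * ell r μ : ℕ) : ℝ) := by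
    have h3 : (0 : ℝ) < (d : ℝ) + 1 := by positivity
    rw [div_mul_eq_mul_div, div_le_iff₀ (by positivity)]
    linarith
  have hμB : μ ∈ B := by
    rw [← Multiset.count_pos]
    by_contra hcon
    have h3 : B.count μ = 0 := by omega
    rw [h3, Nat.zero_mul, Nat.cast_zero] at hμ'
    have h4 : 0 < δ / (2 * (d + 1)) * (ell r (d + 1) : ℝ) := by positivity
    linarith
  have hμS := hS μ (Multiset.mem_of_le hBS hμB)
  have hμM : μ + M ≤ d := by
    rw [hB, Multiset.mem_filter] at hμB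
    exact hμB.2
  refine h₁' μ S hμS.1 (by omega)
    (fun m hm => ⟨(hS m hm).1, by have := (hS m hm).2; omega⟩) hN' (hμ'.trans ?_)
  have h3 : B.count μ ≤ S.count μ := Multiset.count_le_of_le μ hBS
  exact_mod_cast Nat.mul_le_mul_right _ h3

/-- From families to uniformity. -/
theorem unif_of_fam (d : ℕ) (G : ℕ → (Σ K : ℕ, Fin K → ℕ) → Prop)
    (H : ∀ fam : ℕ → Σ K : ℕ, Fin K → ℕ, (∀ n s, 1 ≤ (fam n).2 s ∧ (fam n).2 s ≤ d) →
      (Sml fun n => (fam n).1) → ∃ r₀ : ℕ, ∀ r : ℕ, r₀ ≤ r → G r (fam (r + 1))) :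
    ∃ δ : ℝ, 0 < δ ∧ ∃ r₀ : ℕ, ∀ r : ℕ, r₀ ≤ r → ∀ K : ℕ, (K : ℝ) ≤ δ * r →
      ∀ e : Fin K → ℕ, (∀ s, 1 ≤ e s ∧ e s ≤ d) → G r ⟨K, e⟩ := by
  classical
  by_contra hcon
  push Not at hcon
  have h1 : ∀ t : ℕ, ∃ r : ℕ, t ≤ r ∧ ∃ x : Σ K : ℕ, Fin K → ℕ,
      (x.1 : ℝ) ≤ 1 / ((t : ℝ) + 1) * r ∧ (∀ s, 1 ≤ x.2 s ∧ x.2 s ≤ d) ∧ ¬ G r x := by
    intro t
    obtain ⟨r, hr, K, hK, e, he, hG⟩ := hcon (1 / ((t : ℝ) + 1)) (by positivity) t
    exact ⟨r, hr, ⟨K, e⟩, hK, he, hG⟩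
  choose R hR x hx1 hx2 hx3 using h1
  let fam : ℕ → Σ K : ℕ, Fin K → ℕ := fun n =>
    if h : ∃ t, R t + 1 = n then x h.choose else ⟨0, fun s => s.elim0⟩
  have hfam1 : ∀ n, (∃ t, R t + 1 = n ∧ fam n = x t) ∨ fam n = ⟨0, fun s => s.elim0⟩ := by
    intro n
    by_cases h : ∃ t, R t + 1 = n
    · exact Or.inl ⟨h.choose, h.choose_spec, dif_pos h⟩
    · exact Or.inr (dif_neg h)
  have hfam2 : ∀ n s, 1 ≤ (fam n).2 s ∧ (fam n).2 s ≤ d := by
    intro n
    rcases hfam1 n with ⟨t, -, h⟩ | h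
    · rw [h]
      exact hx2 t
    · rw [h]
      exact fun s => s.elim0
  have hfam3 : Sml fun n => (fam n).1 := by
    intro δ hδ
    obtain ⟨T, hT⟩ := exists_nat_ge (1 / δ)
    refine ⟨(range (T + 1)).sup (fun t => R t + 1) + 1, fun n hn => ?_⟩
    rcases hfam1 n with ⟨t, ht, h⟩ | h
    · show (((fam n).1 : ℕ) : ℝ) ≤ δ * n
      rw [h]
      have hTt : T < t := by
        by_contra hcon2
        have h2 : R t + 1 ≤ (range (T + 1)).sup (fun t => R t + 1) :=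
          Finset.le_sup (f := fun t => R t + 1) (mem_range.2 (by omega))
        omega
      have h3 : 1 / ((t : ℝ) + 1) ≤ δ := by
        rw [div_le_iff₀ (by positivity)]
        have h4 : (T : ℝ) ≤ t := by exact_mod_cast hTt.le
        rw [div_le_iff₀ hδ] at hT
        nlinarith
      have h5 : (R t : ℝ) ≤ n := by exact_mod_cast (by omega : R t ≤ n)
      exact (hx1 t).trans ((mul_le_mul_of_nonneg_right h3 (Nat.cast_nonneg _)).trans
        (mul_le_mul_of_nonneg_left h5 hδ.le))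
    · show (((fam n).1 : ℕ) : ℝ) ≤ δ * n
      rw [h, Nat.cast_zero]
      positivity
  obtain ⟨r₀, h₀⟩ := H fam hfam2 hfam3
  have h2 := h₀ (R r₀) (hR r₀)
  have h3 : ∃ t, R t + 1 = R r₀ + 1 := ⟨r₀, rfl⟩
  have h4 : fam (R r₀ + 1) = x h3.choose := dif_pos h3
  have h5 : R h3.choose = R r₀ := by
    have := h3.choose_spec
    omega
  rw [h4] at h2
  generalize h3.choose = u at h2 h5
  rw [← h5] at h2
  exact hx3 u h2

/-- The non-critical half, uniform in the number of large points. -/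
theorem noncritU (d : ℕ) (η : ℝ) (hη : 0 < η) : ∃ δ : ℝ, 0 < δ ∧ ∃ r₀ : ℕ, ∀ r : ℕ, r₀ ≤ r →
    ∀ K : ℕ, (K : ℝ) ≤ δ * r → ∀ J : Fin K → ℕ, (∀ i, 1 ≤ J i ∧ J i + 1 ≤ d) →
    ∀ S : Multiset ℕ, (∀ m ∈ S, 1 ≤ m ∧ 2 * m ≤ d + 1) →
    (∀ M, 2 * M = d + 1 →
      ((S.count M * ell r M : ℕ) : ℝ) ≤ (1 - η) * (ell r (d + 1) : ℝ)) → KillAt d J r S := by
  obtain ⟨δ, hδ, r₀, h⟩ := unif_of_fam d (Good d η) fun fam h1 h2 => Fin_fam d fam h1 h2 η hη
  refine ⟨δ, hδ, r₀, fun r hr K hK J hJ S hS hcrit hN => ?_⟩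
  have hJd : ∀ i, J i ≤ d := fun i => by
    have := (hJ i).2
    omega
  obtain ⟨hKr, hgood⟩ := h r hr K hK (fun s => d - J s) fun s => by
    have := hJ s
    omega
  rw [← Multiset.map_add]
  have hJe : (univ : Finset (Fin K)).val.map J =
      (univ : Finset (Fin K)).val.map (fun s => d - (d - J s)) :=
    Multiset.map_congr rfl fun s _ => by
      have := hJd s
      omega
  rw [hJe]
  refine hgood S hS hcrit ?_
  rw [NJ_eq hJd hKr] at hN
  have h3 : (S.map fun m => NJ d J (r + 1) (m - 1)) = S.map (cnk r K fun s => d - J s) :=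
    Multiset.map_congr rfl fun m hm => by
      have := (hS m hm).1
      rw [NJ_eq hJd hKr]
      congr 1
      omega
  rw [h3] at hN
  exact hN

end Pool.Agent.LU
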