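import Pool.Agent.LU.Defs

/-!
# LU1: types of pieces
-/

set_option autoImplicit false

namespace Pool.Agent.LU

open Finset Pool.Agent.LK

private theorem Tau_count {K : ℕ} (e k : Fin K → ℕ) (y : ℕ × ℕ) :
    (tau e k).count y = (univ.filter fun s => (e s, k s) = y).card := by
  unfold tau
  rw [Multiset.count_map, ← Finset.card_val, Finset.filter_val]
  congr 1
  refine Multiset.filter_congr fun s _ => ?_
  exact eq_comm

theorem tau_eq_iff {K : ℕ} {e k k' : Fin K → ℕ} : tau e k' = tau e k ↔
    ∃ σ : Equiv.Perm (Fin K), (∀ s, e (σ s) = e s) ∧ ∀ s, k' s = k (σ s) := by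
  classical
  constructor
  · intro h
    have h1 : ∀ y : ℕ × ℕ, Nonempty ({s // (e s, k' s) = y} ≃ {s // (e s, k s) = y}) := by
      intro y
      refine ⟨Fintype.equivOfCardEq ?_⟩
      have h2 := congrArg (Multiset.count y) h
      rw [Tau_count, Tau_count] at h2
      rw [Fintype.card_subtype, Fintype.card_subtype]
      exact h2
    have E := fun y => Classical.choice (h1 y)
    refine ⟨Equiv.ofFiberEquiv (f := fun s => (e s, k' s)) (g := fun s => (e s, k s)) E, ?_, ?_⟩
    · intro s
      have h3 := Equiv.ofFiberEquiv_map (f := fun s => (e s, k' s)) (g := fun s => (e s, k s)) E s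
      exact (Prod.ext_iff.1 h3).1
    · intro s
      have h3 := Equiv.ofFiberEquiv_map (f := fun s => (e s, k' s)) (g := fun s => (e s, k s)) E s
      exact (Prod.ext_iff.1 h3).2.symm
  · rintro ⟨σ, h1, h2⟩
    unfold tau
    have h3 : (fun s => (e s, k' s)) = (fun s => (e s, k s)) ∘ σ := by
      funext s
      show (e s, k' s) = (e (σ s), k (σ s))
      rw [h1, h2]
    rw [h3, ← Multiset.map_map, Multiset.map_univ_val_equiv]

theorem tk_tau {K : ℕ} {e k k' : Fin K → ℕ} (h : tau e k' = tau e k) : tk k' = tk k := by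
  obtain ⟨σ, _, h2⟩ := tau_eq_iff.1 h
  unfold tk
  rw [Finset.sum_congr rfl fun s _ => h2 s]
  exact Equiv.sum_comp σ k

theorem Inv_Bj {K : ℕ} (e : Fin K → ℕ) (j : ℕ) : Inv e (Bj e j) := by
  intro k hk k' h
  rw [mem_Bj] at hk ⊢
  refine ⟨fun s => ?_, ?_⟩
  · obtain ⟨σ, h1, h2⟩ := tau_eq_iff.1 h
    rw [h2, ← h1]
    exact hk.1 _
  · rw [tk_tau h]
    exact hk.2

theorem Inv_del {K : ℕ} {e : Fin K → ℕ} {D : Finset (Fin K → ℕ)} (hI : Inv e D)
    (k : Fin K → ℕ) : Inv e (del e D k) := by
  intro l hl l' h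
  unfold del at hl ⊢
  rw [mem_filter] at hl ⊢
  exact ⟨hI l hl.1 l' h, fun h1 => hl.2 (h.symm.trans h1)⟩

/-- If one piece can be removed then all pieces of its type. -/
theorem Lo_del {K : ℕ} {e : Fin K → ℕ} {D : Finset (Fin K → ℕ)} (hD : Lo D) (hI : Inv e D)
    {k : Fin K → ℕ} (_hk : k ∈ D) (h : Lo (D.erase k)) : Lo (del e D k) := by
  intro l hl l' hl'
  unfold del at hl ⊢
  rw [mem_filter] at hl ⊢
  refine ⟨hD l hl.1 l' hl', fun h1 => ?_⟩
  -- `l'` is a permuted `k`
  obtain ⟨σ, he, hk'⟩ := tau_eq_iff.1 h1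
  -- `l' s = k (σ s)`
  obtain ⟨m, hm⟩ : ∃ m : Fin K → ℕ, m = fun s => l (σ.symm s) := ⟨_, rfl⟩
  have hml : tau e m = tau e l := tau_eq_iff.2 ⟨σ.symm, fun s => by
    have := he (σ.symm s)
    rw [Equiv.apply_symm_apply] at this
    exact this.symm, fun s => by rw [hm]⟩
  have hmD : m ∈ D := hI l hl.1 m hml
  have hkm : ∀ s, k s ≤ m s := by
    intro s
    rw [hm]
    have h2 := hl' (σ.symm s)
    rw [hk' (σ.symm s), Equiv.apply_symm_apply] at h2
    exact h2
  have hmk : m ≠ k := by
    intro h2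
    rw [h2] at hml
    exact hl.2 hml.symm
  have h3 := h m (Finset.mem_erase.2 ⟨hmk, hmD⟩) k hkm
  exact Finset.notMem_erase k D h3

theorem zero_mem_del {K : ℕ} {e : Fin K → ℕ} {D : Finset (Fin K → ℕ)}
    (h0 : (0 : Fin K → ℕ) ∈ D) {k : Fin K → ℕ} (hk : k ≠ 0) : (0 : Fin K → ℕ) ∈ del e D k := by
  unfold del
  rw [mem_filter]
  refine ⟨h0, fun h => hk ?_⟩
  have h1 := tk_tau h
  rw [tk_zero] at h1
  unfold tk at h1
  funext s
  exact (Finset.sum_eq_zero_iff.1 h1.symm) s (mem_univ s)

theorem rkD_del {K : ℕ} {e : Fin K → ℕ} {D : Finset (Fin K → ℕ)} {k : Fin K → ℕ} (hk : k ∈ D) :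
    rkD e (del e D k) < rkD e D := by
  unfold rkD
  apply Finset.card_lt_card
  rw [Finset.ssubset_iff_of_subset]
  · refine ⟨tau e k, mem_image_of_mem _ hk, fun h => ?_⟩
    obtain ⟨l, hl, h1⟩ := mem_image.1 h
    unfold del at hl
    exact (mem_filter.1 hl).2 h1
  · refine Finset.image_subset_image ?_
    unfold del
    exact filter_subset _ _

private theorem Tau_zero {K d : ℕ} {e k : Fin K → ℕ} (hk : ∀ s, k s ≤ d) (x : ℕ) :
    (univ.filter fun s => e s = x).card =
      (univ.filter fun s => (e s, k s) = (x, 0)).card +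
        ∑ y ∈ range d, (univ.filter fun s => (e s, k s) = (x, y + 1)).card := by
  classical
  have h1 : (univ.filter fun s => e s = x).card =
      ∑ y ∈ range (d + 1), ((univ.filter fun s => e s = x).filter fun s => k s = y).card :=
    card_eq_sum_card_fiberwise fun s _ => by
      rw [Finset.mem_coe, mem_range]
      exact Nat.lt_succ_of_le (hk s)
  have h2 : ∀ y, ((univ.filter fun s => e s = x).filter fun s => k s = y) =
      univ.filter fun s => (e s, k s) = (x, y) := by
    intro y
    ext s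
    simp [Prod.ext_iff]
  rw [h1, Finset.sum_range_succ', add_comm, h2, Finset.sum_congr rfl fun y _ => by rw [h2]]

theorem rkD_le {K d : ℕ} {e : Fin K → ℕ} (he : ∀ s, e s ≤ d) {j : ℕ} (hj : j ≤ d)
    {D : Finset (Fin K → ℕ)} (hD : D ⊆ Bj e j) : rkD e D ≤ RU d := by
  classical
  let φ : (Fin K → ℕ) → (Fin (d + 1) × Fin (d + 1) → Fin (d + 1)) := fun k x =>
    ⟨min (if x.2.1 = 0 then 0 else (univ.filter fun s => (e s, k s) = (x.1.1, x.2.1)).card) d,
      by omega⟩
  have hφ : ∀ k x, (φ k x).1 =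
      min (if x.2.1 = 0 then 0 else (univ.filter fun s => (e s, k s) = (x.1.1, x.2.1)).card) d :=
    fun _ _ => rfl
  -- the numbers for `y ≥ 1` are at most `d`
  have hsmall : ∀ k ∈ D, ∀ x y, 1 ≤ y →
      (univ.filter fun s => (e s, k s) = (x, y)).card ≤ d := by
    intro k hk x y hy
    have h1 := (mem_Bj.1 (hD hk)).2
    have h2 : (univ.filter fun s => (e s, k s) = (x, y)).card ≤ tk k := by
      rw [Finset.card_eq_sum_ones]
      unfold tk
      calc ∑ s ∈ univ.filter (fun s => (e s, k s) = (x, y)), 1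
          ≤ ∑ s ∈ univ.filter (fun s => (e s, k s) = (x, y)), k s := by
            refine Finset.sum_le_sum fun s hs => ?_
            have h3 := (Prod.ext_iff.1 (mem_filter.1 hs).2).2
            have h4 : k s = y := h3
            omega
        _ ≤ ∑ s, k s := Finset.sum_le_sum_of_subset (filter_subset _ _)
    omega
  have hkd : ∀ k ∈ D, ∀ s, k s ≤ d := fun k hk s => ((mem_Bj.1 (hD hk)).1 s).trans (he s)
  have hkey : ∀ k ∈ D, ∀ k' ∈ D, φ k = φ k' → tau e k = tau e k' := by
    intro k hk k' hk' h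
    have hpos : ∀ x y, x ≤ d → 1 ≤ y → y ≤ d →
        (univ.filter fun s => (e s, k s) = (x, y)).card =
          (univ.filter fun s => (e s, k' s) = (x, y)).card := by
      intro x y hx hy hyd
      have h1 := congrArg Fin.val (congrFun h (⟨x, by omega⟩, ⟨y, by omega⟩))
      rw [hφ, hφ] at h1
      simp only at h1
      rw [if_neg (by omega), if_neg (by omega), min_eq_left (hsmall k hk x y hy),
        min_eq_left (hsmall k' hk' x y hy)] at h1
      exact h1
    refine Multiset.ext.2 fun z => ?_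
    obtain ⟨x, y⟩ := z
    rw [Tau_count, Tau_count]
    rcases Nat.lt_or_ge d x with hx | hx
    · rw [Finset.filter_false_of_mem, Finset.filter_false_of_mem]
      · intro s _ h1
        have h2 : e s = x := (Prod.ext_iff.1 h1).1
        have := he s
        omega
      · intro s _ h1
        have h2 : e s = x := (Prod.ext_iff.1 h1).1
        have := he s
        omega
    rcases Nat.lt_or_ge d y with hy | hy
    · rw [Finset.filter_false_of_mem, Finset.filter_false_of_mem]
      · intro s _ h1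
        have h2 : k' s = y := (Prod.ext_iff.1 h1).2
        have := hkd k' hk' s
        omega
      · intro s _ h1
        have h2 : k s = y := (Prod.ext_iff.1 h1).2
        have := hkd k hk s
        omega
    rcases Nat.eq_zero_or_pos y with h0 | h0
    · subst h0
      have h1 := Tau_zero (e := e) (hkd k hk) x
      have h2 := Tau_zero (e := e) (hkd k' hk') x
      have h3 : ∑ y ∈ range d, (univ.filter fun s => (e s, k s) = (x, y + 1)).card =
          ∑ y ∈ range d, (univ.filter fun s => (e s, k' s) = (x, y + 1)).card :=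
        Finset.sum_congr rfl fun y hy => hpos x (y + 1) hx (by omega)
          (by rw [mem_range] at hy; omega)
      omega
    · exact hpos x y hx h0 hy
  -- choose representatives
  have hrep : ∀ t ∈ D.image (tau e), ∃ k ∈ D, tau e k = t := fun t ht => by
    obtain ⟨k, hk, h⟩ := mem_image.1 ht
    exact ⟨k, hk, h⟩
  choose! g hg1 hg2 using hrep
  have h1 : (D.image (tau e)).card ≤
      (univ : Finset (Fin (d + 1) × Fin (d + 1) → Fin (d + 1))).card := by
    apply Finset.card_le_card_of_injOn (fun t => φ (g t)) (fun _ _ => mem_coe.2 (mem_univ _))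
    intro t ht t' ht' h
    have h2 := hkey (g t) (hg1 t ht) (g t') (hg1 t' ht') h
    rw [hg2 t ht, hg2 t' ht'] at h2
    exact h2
  unfold rkD RU
  refine h1.trans (le_of_eq ?_)
  rw [Finset.card_univ, Fintype.card_fun, Fintype.card_fin, Fintype.card_prod, Fintype.card_fin]

end Pool.Agent.LU
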