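import Pool.Agent.LU.Tau
import Pool.Agent.LK.Vis

/-!
# LU2: the span property or a smaller invariant set of pieces

`LK.span_or` gives a piece `k` on which the solutions at general positions vanish; by symmetry they
vanish on all pieces of the type of `k`.
-/

set_option autoImplicit false

namespace Pool.Agent.LU

open Finset MvPolynomial Pool.Agent.H18.Ex Pool.Agent.H21.NX Pool.Agent.H18.Ta Pool.Agent.H51.TB
  Pool.Agent.H21.TC Pool.Agent.V7.ST Pool.Agent.LK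

private lemma Vis_Bd_mono {K a b d j : ℕ} {o : Fin K → Fin b} {D' D : Finset (Fin K → ℕ)}
    (h : D' ⊆ D) {α : Z a b → ℕ} (hα : α ∈ Bd a b d j o D') : α ∈ Bd a b d j o D := by
  rw [mem_Bd] at hα ⊢
  exact ⟨hα.1, h hα.2⟩

/-- Sums over the smaller set. -/
private lemma Vis_sum {K a b d j : ℕ} {o : Fin K → Fin b} {D' D : Finset (Fin K → ℕ)}
    (h : D' ⊆ D) (F : {α // α ∈ Bd a b d j o D} → ℂ)
    (hF : ∀ α : {α // α ∈ Bd a b d j o D}, jp o α.1 ∉ D' → F α = 0) :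
    ∑ α : {α // α ∈ Bd a b d j o D'}, F ⟨α.1, Vis_Bd_mono h α.2⟩ =
      ∑ α : {α // α ∈ Bd a b d j o D}, F α := by
  refine sum_of_injOn (fun α => ⟨α.1, Vis_Bd_mono h α.2⟩) ?_ ?_ ?_ ?_
  · intro α _ α' _ h
    exact Subtype.ext (congrArg (fun z : {α // α ∈ Bd a b d j o D} => z.1) h)
  · intro α _
    exact mem_coe.2 (mem_univ _)
  · intro α _ hα
    apply hF α
    intro hne
    apply hα
    exact ⟨⟨α.1, mem_Bd.2 ⟨(mem_Bd.1 α.2).1, hne⟩⟩, mem_coe.2 (mem_univ _), rfl⟩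
  · intro α _
    rfl

/-- Restriction. -/
private lemma Vis_restr {K a b d j : ℕ} {o : Fin K → Fin b} {D' D : Finset (Fin K → ℕ)}
    (h : D' ⊆ D) {κ : Type} (m : κ → Finset (ℕ × ℕ)) (p : κ → Z a b → ℂ)
    (hv : ∀ f ∈ (ASys (Bd a b d j o D)).V m p, ∀ α : {α // α ∈ Bd a b d j o D},
      jp o α.1 ∉ D' → f α = 0) :
    Module.finrank ℂ ((ASys (Bd a b d j o D)).V m p) ≤
      Module.finrank ℂ ((ASys (Bd a b d j o D')).V m p) := by
  let R : ({α // α ∈ Bd a b d j o D} → ℂ) →ₗ[ℂ] ({α // α ∈ Bd a b d j o D'} → ℂ) :=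
    { toFun := fun f α => f ⟨α.1, Vis_Bd_mono h α.2⟩
      map_add' := fun f g => rfl
      map_smul' := fun c f => rfl }
  have hmap : ∀ f ∈ (ASys (Bd a b d j o D)).V m p, R f ∈ (ASys (Bd a b d j o D')).V m p := by
    intro f hf
    have h1 := hv f hf
    rw [mem_AV] at hf ⊢
    intro i γ hγ
    rw [← hf i γ hγ]
    exact Vis_sum h (fun α => tcr (p i) α.1 γ * f α) fun α hα => by rw [h1 α hα, mul_zero]
  refine LinearMap.finrank_le_finrank_of_injective (f := R.restrict hmap) ?_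
  rw [← LinearMap.ker_eq_bot, LinearMap.ker_eq_bot']
  intro f hf
  apply Subtype.ext
  funext α
  have h1 := congrArg Subtype.val hf
  by_cases hα : jp o α.1 ∈ D'
  · exact congrFun h1 ⟨α.1, mem_Bd.2 ⟨(mem_Bd.1 α.2).1, hα⟩⟩
  · exact hv f.1 f.2 α hα

/-- Extension by zero. -/
private noncomputable def Vis_E {K a b d j : ℕ} (o : Fin K → Fin b) (D' D : Finset (Fin K → ℕ)) :
    ({α // α ∈ Bd a b d j o D'} → ℂ) →ₗ[ℂ] ({α // α ∈ Bd a b d j o D} → ℂ) where
  toFun := fun f α => if h : α.1 ∈ Bd a b d j o D' then f ⟨α.1, h⟩ else 0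
  map_add' := fun f g => by
    funext α
    simp only [Pi.add_apply]
    split_ifs
    · rfl
    · rw [add_zero]
  map_smul' := fun c f => by
    funext α
    simp only [Pi.smul_apply, RingHom.id_apply]
    split_ifs
    · rfl
    · rw [smul_zero]

private lemma Vis_E_apply {K a b d j : ℕ} {o : Fin K → Fin b} {D' D : Finset (Fin K → ℕ)}
    (f : {α // α ∈ Bd a b d j o D'} → ℂ) (α : {α // α ∈ Bd a b d j o D}) :
    Vis_E o D' D f α = if h : α.1 ∈ Bd a b d j o D' then f ⟨α.1, h⟩ else 0 := rfl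

private lemma Vis_E_mem {K a b d j : ℕ} {o : Fin K → Fin b} {D' D : Finset (Fin K → ℕ)}
    (h : D' ⊆ D) {κ : Type} (m : κ → Finset (ℕ × ℕ)) (p : κ → Z a b → ℂ)
    (f : {α // α ∈ Bd a b d j o D'} → ℂ) (hf : f ∈ (ASys (Bd a b d j o D')).V m p) :
    Vis_E o D' D f ∈ (ASys (Bd a b d j o D)).V m p := by
  rw [mem_AV] at hf ⊢
  intro i γ hγ
  rw [← hf i γ hγ, ← Vis_sum h (fun α => tcr (p i) α.1 γ * Vis_E o D' D f α)]
  · refine sum_congr rfl fun α _ => ?_
    rw [Vis_E_apply, dif_pos α.2]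
  · intro α hα
    rw [Vis_E_apply, dif_neg, mul_zero]
    intro h1
    exact hα (mem_Bd.1 h1).2

/-- If the general dimensions agree then the solutions at general positions are those of the
smaller system. -/
private lemma Vis_gen {K a b d j : ℕ} {o : Fin K → Fin b} {D' D : Finset (Fin K → ℕ)}
    (h : D' ⊆ D) {κ : Type} [Fintype κ] (m : κ → Finset (ℕ × ℕ))
    (hgd : (ASys (Bd a b d j o D)).gd m ≤ (ASys (Bd a b d j o D')).gd m) :
    Gn κ (Z a b) fun p => ∀ f ∈ (ASys (Bd a b d j o D)).V m p,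
      ∀ α : {α // α ∈ Bd a b d j o D}, jp o α.1 ∉ D' → f α = 0 := by
  refine (gn_gd (ASys (Bd a b d j o D)) m).mono fun p hp f hf α hα => ?_
  have hle : ((ASys (Bd a b d j o D')).V m p).map (Vis_E o D' D) ≤
      (ASys (Bd a b d j o D)).V m p := by
    rintro _ ⟨g, hg, rfl⟩
    exact Vis_E_mem h m p g hg
  have hinj : Function.Injective (Vis_E (a := a) (d := d) (j := j) o D' D) := by
    intro g g' hgg
    funext β
    have h1 := congrFun hgg ⟨β.1, Vis_Bd_mono h β.2⟩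
    rw [Vis_E_apply, Vis_E_apply, dif_pos β.2, dif_pos β.2] at h1
    exact h1
  have hfr : Module.finrank ℂ (((ASys (Bd a b d j o D')).V m p).map (Vis_E o D' D)) =
      Module.finrank ℂ ((ASys (Bd a b d j o D')).V m p) :=
    (LinearEquiv.finrank_eq (Submodule.equivMapOfInjective _ hinj _)).symm
  have heq : ((ASys (Bd a b d j o D')).V m p).map (Vis_E o D' D) =
      (ASys (Bd a b d j o D)).V m p := by
    refine Submodule.eq_of_le_of_finrank_le hle ?_
    rw [hfr, hp]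
    exact hgd.trans (gd_le _ m p)
  rw [← heq] at hf
  obtain ⟨g, _, rfl⟩ := hf
  rw [Vis_E_apply, dif_neg]
  intro h1
  exact hα (mem_Bd.1 h1).2

/-- The permutation of the variables. -/
private noncomputable def Vis_pi {K : ℕ} (a : ℕ) {b : ℕ} {o : Fin K → Fin b}
    (ho : Function.Injective o) (σ : Equiv.Perm (Fin K)) : Equiv.Perm (Z a b) :=
  Equiv.sumCongr (Equiv.refl _) (σ.viaEmbedding ⟨o, ho⟩)

private lemma Vis_pi_o {K a b : ℕ} {o : Fin K → Fin b} (ho : Function.Injective o)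
    (σ : Equiv.Perm (Fin K)) (s : Fin K) :
    Vis_pi a ho σ (Sum.inr (o s)) = Sum.inr (o (σ s)) := by
  unfold Vis_pi
  show Sum.inr _ = _
  congr 1
  exact Equiv.Perm.viaEmbedding_apply σ ⟨o, ho⟩ s

private lemma Vis_xd {K a b : ℕ} {o : Fin K → Fin b} (ho : Function.Injective o)
    (σ : Equiv.Perm (Fin K)) (α : Z a b → ℕ) : xd (fun x => α (Vis_pi a ho σ x)) = xd α := rfl

private lemma Vis_yd {K a b : ℕ} {o : Fin K → Fin b} (ho : Function.Injective o)
    (σ : Equiv.Perm (Fin K)) (α : Z a b → ℕ) : yd (fun x => α (Vis_pi a ho σ x)) = yd α := by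
  unfold yd
  exact Equiv.sum_comp (σ.viaEmbedding ⟨o, ho⟩) fun i => α (Sum.inr i)

private lemma Vis_xd' {K a b : ℕ} {o : Fin K → Fin b} (ho : Function.Injective o)
    (σ : Equiv.Perm (Fin K)) (α : Z a b → ℕ) :
    xd (fun x => α ((Vis_pi a ho σ).symm x)) = xd α := by
  rw [← Vis_xd ho σ fun x => α ((Vis_pi a ho σ).symm x)]
  simp only [Equiv.symm_apply_apply]

private lemma Vis_yd' {K a b : ℕ} {o : Fin K → Fin b} (ho : Function.Injective o)
    (σ : Equiv.Perm (Fin K)) (α : Z a b → ℕ) :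
    yd (fun x => α ((Vis_pi a ho σ).symm x)) = yd α := by
  rw [← Vis_yd ho σ fun x => α ((Vis_pi a ho σ).symm x)]
  simp only [Equiv.symm_apply_apply]

private lemma Vis_jp {K a b : ℕ} {o : Fin K → Fin b} (ho : Function.Injective o)
    (σ : Equiv.Perm (Fin K)) (α : Z a b → ℕ) :
    jp o (fun x => α (Vis_pi a ho σ x)) = fun s => jp o α (σ s) := by
  funext s
  show α (Vis_pi a ho σ (Sum.inr (o s))) = α (Sum.inr (o (σ s)))
  rw [Vis_pi_o]

private lemma Vis_Bd_pi {K a b d j : ℕ} {o : Fin K → Fin b} (ho : Function.Injective o)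
    {e : Fin K → ℕ} {D : Finset (Fin K → ℕ)} (hI : Inv e D) {σ : Equiv.Perm (Fin K)}
    (hσ : ∀ s, e (σ s) = e s) {α : Z a b → ℕ} (hα : α ∈ Bd a b d j o D) :
    (fun x => α (Vis_pi a ho σ x)) ∈ Bd a b d j o D := by
  rw [mem_Bd, mem_Bx] at hα ⊢
  rw [Vis_xd, Vis_yd, Vis_jp]
  exact ⟨hα.1, hI _ hα.2 _ (tau_eq_iff.2 ⟨σ, hσ, fun s => rfl⟩)⟩

private lemma Vis_Bd_pi' {K a b d j : ℕ} {o : Fin K → Fin b} (ho : Function.Injective o)
    {e : Fin K → ℕ} {D : Finset (Fin K → ℕ)} (hI : Inv e D) {σ : Equiv.Perm (Fin K)}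
    (hσ : ∀ s, e (σ s) = e s) {α : Z a b → ℕ} (hα : α ∈ Bd a b d j o D) :
    (fun x => α ((Vis_pi a ho σ).symm x)) ∈ Bd a b d j o D := by
  rw [mem_Bd, mem_Bx] at hα ⊢
  rw [Vis_xd', Vis_yd']
  refine ⟨hα.1, hI _ hα.2 _ (tau_eq_iff.2 ⟨σ.symm, fun s => ?_, fun s => ?_⟩)⟩
  · have := hσ (σ.symm s)
    rw [Equiv.apply_symm_apply] at this
    exact this.symm
  · show α ((Vis_pi a ho σ).symm (Sum.inr (o s))) = α (Sum.inr (o (σ.symm s)))
    congr 1
    rw [Equiv.symm_apply_eq, Vis_pi_o, Equiv.apply_symm_apply]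

/-- The solutions are permuted. -/
private lemma Vis_perm {K a b d j : ℕ} {o : Fin K → Fin b} (ho : Function.Injective o)
    {e : Fin K → ℕ} {D : Finset (Fin K → ℕ)} (hI : Inv e D) {σ : Equiv.Perm (Fin K)}
    (hσ : ∀ s, e (σ s) = e s) {κ : Type} (m : κ → Finset (ℕ × ℕ)) (p : κ → Z a b → ℂ)
    (f : {α // α ∈ Bd a b d j o D} → ℂ) (hf : f ∈ (ASys (Bd a b d j o D)).V m p) :
    (fun α : {α // α ∈ Bd a b d j o D} =>
      f ⟨fun x => α.1 (Vis_pi a ho σ x), Vis_Bd_pi ho hI hσ α.2⟩) ∈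
      (ASys (Bd a b d j o D)).V m fun i x => p i ((Vis_pi a ho σ).symm x) := by
  rw [mem_AV] at hf ⊢
  intro i β hβ
  rw [← hf i (fun x => β (Vis_pi a ho σ x)) (by rw [Vis_xd, Vis_yd]; exact hβ)]
  let ε : {α // α ∈ Bd a b d j o D} ≃ {α // α ∈ Bd a b d j o D} :=
    { toFun := fun α => ⟨fun x => α.1 (Vis_pi a ho σ x), Vis_Bd_pi ho hI hσ α.2⟩
      invFun := fun α => ⟨fun x => α.1 ((Vis_pi a ho σ).symm x), Vis_Bd_pi' ho hI hσ α.2⟩
      left_inv := fun α => Subtype.ext (by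
        funext x
        show α.1 (Vis_pi a ho σ ((Vis_pi a ho σ).symm x)) = α.1 x
        rw [Equiv.apply_symm_apply])
      right_inv := fun α => Subtype.ext (by
        funext x
        show α.1 ((Vis_pi a ho σ).symm (Vis_pi a ho σ x)) = α.1 x
        rw [Equiv.symm_apply_apply]) }
  rw [← Equiv.sum_comp ε fun α : {α // α ∈ Bd a b d j o D} =>
    tcr (p i) α.1 (fun x => β (Vis_pi a ho σ x)) * f α]
  refine sum_congr rfl fun α _ => ?_
  show tcr (fun x => p i ((Vis_pi a ho σ).symm x)) α.1 β * f (ε α) =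
    tcr (p i) (ε α).1 (fun x => β (Vis_pi a ho σ x)) * f (ε α)
  congr 1
  unfold tcr
  rw [← Equiv.prod_comp (Vis_pi a ho σ)]
  refine prod_congr rfl fun x _ => ?_
  simp only [Equiv.symm_apply_apply]
  rfl

/-- Vanishing on a piece implies vanishing on the permuted piece. -/
private lemma Vis_gn_perm {K a b d j : ℕ} {o : Fin K → Fin b} (ho : Function.Injective o)
    {e : Fin K → ℕ} {D : Finset (Fin K → ℕ)} (hI : Inv e D) {σ : Equiv.Perm (Fin K)}
    (hσ : ∀ s, e (σ s) = e s) {κ : Type} (m : κ → Finset (ℕ × ℕ)) (k : Fin K → ℕ)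
    (h : Gn κ (Z a b) fun p => ∀ f ∈ (ASys (Bd a b d j o D)).V m p,
      ∀ α : {α // α ∈ Bd a b d j o D}, jp o α.1 = k → f α = 0) :
    Gn κ (Z a b) fun p => ∀ f ∈ (ASys (Bd a b d j o D)).V m p,
      ∀ α : {α // α ∈ Bd a b d j o D}, (jp o α.1 = fun s => k (σ s)) → f α = 0 := by
  obtain ⟨G, hG0, hG⟩ := h
  let ρ : κ × Z a b → κ × Z a b := fun x => (x.1, (Vis_pi a ho σ).symm x.2)
  have hρ : Function.Injective ρ := by
    rintro ⟨i, x⟩ ⟨i', x'⟩ h
    have h1 : i = i' := congrArg Prod.fst h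
    have h2 : (Vis_pi a ho σ).symm x = (Vis_pi a ho σ).symm x' := congrArg Prod.snd h
    rw [h1, (Vis_pi a ho σ).symm.injective h2]
  refine ⟨rename ρ G, ?_, ?_⟩
  · intro h0
    exact hG0 (rename_injective ρ hρ (by rw [h0, map_zero]))
  · intro p hp f hf α hα
    rw [eval_rename] at hp
    have h1 := hG (fun i x => p i ((Vis_pi a ho σ).symm x)) hp _ (Vis_perm ho hI hσ m p f hf)
      ⟨fun x => α.1 ((Vis_pi a ho σ).symm x), Vis_Bd_pi' ho hI hσ α.2⟩ ?_
    · refine Eq.trans (congrArg f (Subtype.ext ?_)) h1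
      funext x
      show α.1 x = α.1 ((Vis_pi a ho σ).symm (Vis_pi a ho σ x))
      rw [Equiv.symm_apply_apply]
    · funext s
      show α.1 ((Vis_pi a ho σ).symm (Sum.inr (o s))) = k s
      have h2 : (Vis_pi a ho σ).symm (Sum.inr (o s)) = Sum.inr (o (σ.symm s)) := by
        rw [Equiv.symm_apply_eq, Vis_pi_o, Equiv.apply_symm_apply]
      rw [h2]
      have h3 := congrFun hα (σ.symm s)
      rw [Equiv.apply_symm_apply] at h3
      exact h3

/-- Finite intersections. -/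
private lemma Vis_gn_all {ι : Type} [Fintype ι] {κ ν : Type} {P : ι → (κ → ν → ℂ) → Prop}
    (h : ∀ i, Gn κ ν (P i)) : Gn κ ν fun p => ∀ i, P i p := by
  choose G hG0 hG using h
  refine ⟨∏ i, G i, prod_ne_zero_iff.2 fun i _ => hG0 i, fun p hp i => hG i p ?_⟩
  rw [map_prod] at hp
  exact prod_ne_zero_iff.1 hp i (mem_univ i)

theorem span_orb {K a b d j : ℕ} (ha : 1 ≤ a) (hb : K + 1 ≤ b) {o : Fin K → Fin b}
    (ho : Function.Injective o) (hj : j ≤ d) (e : Fin K → ℕ) (D : Finset (Fin K → ℕ))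
    (hD : Lo D) (hI : Inv e D) (h0 : (0 : Fin K → ℕ) ∈ D) (hDj : ∀ k ∈ D, tk k ≤ j)
    {κ : Type} [Fintype κ] (m : κ → Finset (ℕ × ℕ)) :
    SpanAt (ASys (Bd a b d j o D)) m ∨ ∃ k ∈ D, k ≠ 0 ∧ Lo (D.erase k) ∧
      (ASys (Bd a b d j o D)).gd m ≤ (ASys (Bd a b d j o (del e D k))).gd m := by
  classical
  rcases span_or ha hb ho hj D hD h0 hDj m with h | ⟨k, hk, hk0, hlo, hgd⟩
  · exact Or.inl h
  refine Or.inr ⟨k, hk, hk0, hlo, ?_⟩
  have h1 : Gn κ (Z a b) fun p => ∀ f ∈ (ASys (Bd a b d j o D)).V m p,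
      ∀ α : {α // α ∈ Bd a b d j o D}, jp o α.1 = k → f α = 0 :=
    (Vis_gen (erase_subset k D) m hgd).mono fun p hp f hf α hα =>
      hp f hf α (by rw [hα]; exact notMem_erase k D)
  have h2 : Gn κ (Z a b) fun p => ∀ σ : {σ : Equiv.Perm (Fin K) // ∀ s, e (σ s) = e s},
      ∀ f ∈ (ASys (Bd a b d j o D)).V m p,
      ∀ α : {α // α ∈ Bd a b d j o D}, (jp o α.1 = fun s => k (σ.1 s)) → f α = 0 :=
    Vis_gn_all fun σ => Vis_gn_perm ho hI σ.2 m k h1
  obtain ⟨p, hp1, hp2⟩ := (h2.and (gn_gd (ASys (Bd a b d j o (del e D k))) m)).exists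
  rw [← hp2]
  refine (gd_le _ m p).trans (Vis_restr (filter_subset _ _) m p fun f hf α hα => ?_)
  have hαD : jp o α.1 ∈ D := (mem_Bd.1 α.2).2
  have h3 : tau e (jp o α.1) = tau e k := by
    by_contra hne
    exact hα (mem_filter.2 ⟨hαD, hne⟩)
  obtain ⟨σ, hσ, hs⟩ := tau_eq_iff.1 h3
  exact hp1 ⟨σ, hσ⟩ f hf α (funext hs)

end Pool.Agent.LU
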