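import Pool.Agent.LK.Lev
import Pool.Agent.LU.Tau
import Pool.Agent.LU.Vis

/-!
# LU3: a level is killed

As LK7, for the invariant sets of pieces `D`; `phases` is applied with `rk D` = number of types in `D`.
-/

set_option autoImplicit false

namespace Pool.Agent.LU

open Finset MvPolynomial Pool.Agent.H18.Ex Pool.Agent.H21.NX Pool.Agent.H18.Ta Pool.Agent.H51.TB
  Pool.Agent.H21.TC Pool.Agent.V7.ST Pool.Agent.LK

private theorem Lev_ell {n c : ℕ} (hc : 1 ≤ c) (hcn : c ≤ n) : 2 * ell n c ≤ ell n (c + 1) := by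
  unfold ell
  have h1 : c + 1 + n - 1 = c + n - 1 + 1 := by omega
  rw [h1]
  have h2 := Nat.add_one_mul_choose_eq (c + n - 1) (c - 1)
  -- `(c + n) * C(c + n - 1, c - 1) = c * C(c + n, c)`
  have h3 : (c + n - 1).choose (c - 1) = (c + n - 1).choose n := by
    rw [← Nat.choose_symm (show n ≤ c + n - 1 by omega)]
    congr 1
    omega
  have h4 : (c + n - 1 + 1).choose (c - 1 + 1) = (c + n - 1 + 1).choose n := by
    rw [← Nat.choose_symm (show n ≤ c + n - 1 + 1 by omega)]
    congr 1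
    omega
  rw [h3, h4] at h2
  have h5 : c - 1 + 1 = c := by omega
  rw [h5] at h2
  have h6 : 2 * c ≤ c + n - 1 + 1 := by omega
  have h7 : c * (2 * (c + n - 1).choose n) ≤ c * (c + n - 1 + 1).choose n := by
    calc c * (2 * (c + n - 1).choose n) = 2 * c * (c + n - 1).choose n := by ring
      _ ≤ (c + n - 1 + 1) * (c + n - 1).choose n := Nat.mul_le_mul_right _ h6
      _ = (c + n - 1 + 1).choose n * c := h2
      _ = c * (c + n - 1 + 1).choose n := Nat.mul_comm _ _
  exact Nat.le_of_mul_le_mul_left h7 (by omega)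

/-- `ND` when a type is removed. -/
private theorem Lev_ND {K : ℕ} (a b d j : ℕ) (e : Fin K → ℕ) (D : Finset (Fin K → ℕ))
    (k : Fin K → ℕ) : ND a b d j D =
      ND a b d j (del e D k) + ∑ k' ∈ D.filter (fun k' => tau e k' = tau e k), nk a b d j k' := by
  unfold ND del
  rw [add_comm, Finset.sum_filter_add_sum_filter_not]

private theorem Lev_WD {K : ℕ} (a b : ℕ) (e : Fin K → ℕ) (D : Finset (Fin K → ℕ)) (k : Fin K → ℕ)
    (g : ℕ × ℕ) : WD a b D g =
      WD a b (del e D k) g + ∑ k' ∈ D.filter (fun k' => tau e k' = tau e k), wk a b k' g := by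
  unfold WD del
  rw [add_comm, Finset.sum_filter_add_sum_filter_not]

private theorem Lev_sum_map {T ι : Type} (u : Multiset T) (F : Finset ι) (f : ι → T → ℕ) :
    (u.map fun x => ∑ i ∈ F, f i x).sum = ∑ i ∈ F, (u.map fun x => f i x).sum := by
  induction u using Multiset.induction_on with
  | empty => simp
  | cons x s ih =>
    rw [Multiset.map_cons, Multiset.sum_cons, ih, ← sum_add_distrib]
    exact sum_congr rfl fun i _ => by rw [Multiset.map_cons, Multiset.sum_cons]

private theorem Lev_map_add {T : Type} (u : Multiset T) (f h : T → ℕ) :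
    (u.map fun x => f x + h x).sum = (u.map f).sum + (u.map h).sum := Multiset.sum_map_add

theorem level_U {K a b d j M μ : ℕ} (ha : 1 ≤ a) (hb : K + 1 ≤ b) {o : Fin K → Fin b}
    (ho : Function.Injective o) (hj : j ≤ d) (e : Fin K → ℕ) (he : ∀ s, e s ≤ d) (hμ : 1 ≤ μ)
    (hμM : μ ≤ M) (hMab : M ≤ a + b) (R : ℕ) (hR : RU d ≤ R) (S : Multiset (Finset (ℕ × ℕ)))
    (hS : ∀ Λ ∈ S, Dn Λ ∧ Wi d j Λ ∧ ∀ g ∈ Λ, g.1 + g.2 < M)
    (h1 : ND a b d j (Bj e j) ≤ (S.map fun Λ => ∑ g ∈ Λ, WD a b (Bj e j) g).sum)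
    (h2 : ∀ t, 1 ≤ t → t < μ → R * (ell (a + b) (t + 1) * ell (a + b) M) ≤
      ((S.filter fun Λ => cl Λ = t).map fun Λ => ∑ g ∈ Λ, wk a b (0 : Fin K → ℕ) g).sum)
    (h3 : R * (2 * (ell (a + b) M * ell (a + b) M)) ≤
      ((S.filter fun Λ => cl Λ = μ).map fun Λ => ∑ g ∈ Λ, wk a b (0 : Fin K → ℕ) g).sum)
    (h4 : ∀ k ∈ Bj e j, k ≠ 0 → (S.map fun Λ => ∑ g ∈ Λ, wk a b k g).sum +
      R * ell (a + b) M * ∑ g ∈ top d M j, wk a b k g < nk a b d j k) :
    gM (ASys (Bd a b d j o (Bj e j))) S = 0 := by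
  classical
  -- the index set
  let Q : Type := {D : Finset (Fin K → ℕ) // Lo D ∧ (0 : Fin K → ℕ) ∈ D ∧ D ⊆ Bj e j ∧ Inv e D}
  have hrk : ∀ q : Q, 1 ≤ rkD e q.1 ∧ rkD e q.1 ≤ R := fun q =>
    ⟨card_pos.2 (Finset.image_nonempty.2 ⟨0, q.2.2.1⟩), (rkD_le he hj q.2.2.2.1).trans hR⟩
  let sy : ∀ q : Q, Sys {α // α ∈ Bd a b d j o q.1} (Z a b) (Finset (ℕ × ℕ)) :=
    fun q => ASys (Bd a b d j o q.1)
  have hcard : ∀ q : Q, Fintype.card {α // α ∈ Bd a b d j o q.1} = ND a b d j q.1 := fun q => by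
    rw [Fintype.card_coe]
    exact card_Bd (by omega) ho hj q.1
  -- the sizes
  have hsize : ∀ (q : Q) (Λ : Finset (ℕ × ℕ)), Dn Λ → Wi d j Λ →
      (sy q).size Λ = ∑ g ∈ Λ, WD a b q.1 g := fun q Λ hD hW =>
    le_antisymm (size_le_D ha hb ho q.1 q.2.1 Λ hD) (le_size_D ha hb ho hj q.1 Λ hW)
  have hw : 1 ≤ ell (a + b) M := by
    have := ell_pos (a + b) (m := M) (by omega)
    omega
  set top' := top d M j with htop
  have hsM : ∀ (q : Q), (sy q).size top' ≤ ell (a + b) M := fun q => by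
    refine size_le_A ha _ _ M fun g hg => ?_
    rw [htop] at hg
    unfold top at hg
    exact (mem_filter.1 hg).2.2.2
  have hscl : ∀ (q : Q) (Λ : Finset (ℕ × ℕ)), (sy q).size Λ ≤ ell (a + b) (cl Λ) := fun q Λ => by
    refine size_le_A ha _ _ _ fun g hg => ?_
    have h5 : g.1 + g.2 + 1 ≤ cl Λ := le_sup (f := fun g : ℕ × ℕ => g.1 + g.2 + 1) hg
    omega
  have hsM' : ∀ (q : Q) (Λ), Λ ∈ S → (sy q).size Λ ≤ ell (a + b) M := fun q Λ hΛ => by
    refine size_le_A ha _ _ M fun g hg => (hS Λ hΛ).2.2 g hg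
  have hdom : ∀ (q : Q) (Λ), Λ ∈ S → (sy q).Dom top' Λ := fun q Λ hΛ => by
    refine dom_A _ fun g hg => ?_
    have h5 := (hS Λ hΛ).2.2 g hg
    have h6 := (hS Λ hΛ).2.1 g hg
    rw [htop]
    unfold top
    rw [mem_filter, mem_product, mem_range, mem_range]
    omega
  -- the type of `k` is removed
  have hvir : ∀ (q : Q) (k) (hk : k ∈ q.1) (hk0 : k ≠ 0) (q' : Q) (hq' : q'.1 = del e q.1 k)
      (s : Multiset (Finset (ℕ × ℕ))), s ≤ S → ∀ i ≤ R * ell (a + b) M,
      vir (ND a b d j q'.1) (sy q').size (s + Multiset.replicate i top') <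
        vir (ND a b d j q.1) (sy q).size (s + Multiset.replicate i top') := by
    intro q k hk hk0 q' hq' s hs i hi
    obtain ⟨F, hF⟩ : ∃ F : Finset (Fin K → ℕ), F = q.1.filter (fun k' => tau e k' = tau e k) :=
      ⟨_, rfl⟩
    have hkF : k ∈ F := by
      rw [hF, mem_filter]
      exact ⟨hk, rfl⟩
    have e1 : ∀ Λ, Dn Λ → Wi d j Λ → (sy q).size Λ =
        (sy q').size Λ + ∑ k' ∈ F, ∑ g ∈ Λ, wk a b k' g := by
      intro Λ hD hW
      rw [hsize q Λ hD hW, hsize q' Λ hD hW, sum_comm, ← sum_add_distrib, hq']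
      exact sum_congr rfl fun g _ => by rw [Lev_WD a b e q.1 k g, ← hF]
    have e2 : ((s + Multiset.replicate i top').map (sy q).size).sum =
        ((s + Multiset.replicate i top').map (sy q').size).sum +
        ∑ k' ∈ F, ((s.map fun Λ => ∑ g ∈ Λ, wk a b k' g).sum + i * ∑ g ∈ top', wk a b k' g) := by
      have e3 : (s.map (sy q).size).sum = (s.map (sy q').size).sum +
          ∑ k' ∈ F, (s.map fun Λ => ∑ g ∈ Λ, wk a b k' g).sum := by
        rw [← Lev_sum_map s F fun k' Λ => ∑ g ∈ Λ, wk a b k' g, ← Lev_map_add]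
        congr 1
        refine Multiset.map_congr rfl fun Λ hΛ => ?_
        have := hS Λ (Multiset.mem_of_le hs hΛ)
        exact e1 Λ this.1 this.2.1
      rw [Multiset.map_add, Multiset.map_add, Multiset.sum_add, Multiset.sum_add,
        Multiset.map_replicate, Multiset.map_replicate, Multiset.sum_replicate,
        Multiset.sum_replicate, e3, smul_eq_mul, smul_eq_mul,
        e1 top' (htop ▸ top_Dn d M j) (htop ▸ top_Wi d M j), sum_add_distrib, ← mul_sum]
      ring
    have e5 : ∀ k' ∈ F, (s.map fun Λ => ∑ g ∈ Λ, wk a b k' g).sum + i * ∑ g ∈ top', wk a b k' g <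
        nk a b d j k' := by
      intro k' hk'
      rw [hF, mem_filter] at hk'
      have hk'0 : k' ≠ 0 := by
        intro h0
        apply hk0
        have h6 := tk_tau hk'.2
        rw [h0, tk_zero] at h6
        have h7 : tk k = 0 := h6.symm
        unfold tk at h7
        funext x
        exact (Finset.sum_eq_zero_iff.1 h7) x (mem_univ x)
      have e4 := h4 k' (q.2.2.2.1 hk'.1) hk'0
      have e5 : (s.map fun Λ => ∑ g ∈ Λ, wk a b k' g).sum ≤
          (S.map fun Λ => ∑ g ∈ Λ, wk a b k' g).sum := by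
        obtain ⟨u, rfl⟩ := Multiset.le_iff_exists_add.1 hs
        rw [Multiset.map_add, Multiset.sum_add]
        exact Nat.le_add_right _ _
      have e6 : i * ∑ g ∈ top', wk a b k' g ≤ R * ell (a + b) M * ∑ g ∈ top', wk a b k' g :=
        Nat.mul_le_mul_right _ hi
      omega
    have e7 : ND a b d j q.1 = ND a b d j q'.1 + ∑ k' ∈ F, nk a b d j k' := by
      rw [Lev_ND a b d j e q.1 k, hq', hF]
    have e8 : ∑ k' ∈ F, ((s.map fun Λ => ∑ g ∈ Λ, wk a b k' g).sum +
        i * ∑ g ∈ top', wk a b k' g) < ∑ k' ∈ F, nk a b d j k' :=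
      Finset.sum_lt_sum_of_nonempty ⟨k, hkF⟩ e5
    unfold vir
    rw [e2, e7]
    have e9 : ((∑ k' ∈ F, ((s.map fun Λ => ∑ g ∈ Λ, wk a b k' g).sum +
        i * ∑ g ∈ top', wk a b k' g) : ℕ) : ℤ) < ((∑ k' ∈ F, nk a b d j k' : ℕ) : ℤ) := by
      exact_mod_cast e8
    rw [Nat.cast_add, Nat.cast_add]
    linarith
  -- the full set
  let q₀ : Q := ⟨Bj e j, Lo_Bj e j, zero_mem_Bj e j, Subset.refl _, Inv_Bj e j⟩
  have hmain := phases (Q := Q) (T := Finset (ℕ × ℕ)) (fun q s => gM (sy q) s)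
    (fun q => ND a b d j q.1) (fun q => (sy q).size) (fun q => rkD e q.1) top'
    (fun Λ => ∑ g ∈ Λ, wk a b (0 : Fin K → ℕ) g) cl (ell (a + b)) S R (ell (a + b) M) μ hμ hw
    hrk
    (fun q => by
      show gM (sy q) 0 = ND a b d j q.1
      rw [gM_zero, hcard q])
    (fun q s t => gM_cons_le (sy q) s t) (fun q s t => gM_le_cons (sy q) s t)
    ?_ ?_ hsM (fun q t ht => ⟨hsM' q t ht, hscl q t⟩) ?_ ?_ ?_ h2 h3 q₀
  · -- the conclusion
    have h5 : vir (ND a b d j q₀.1) (sy q₀).size S ≤ 0 := by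
      unfold vir
      have h6 : (S.map (sy q₀).size).sum = (S.map fun Λ => ∑ g ∈ Λ, WD a b (Bj e j) g).sum := by
        congr 1
        refine Multiset.map_congr rfl fun Λ hΛ => ?_
        exact hsize q₀ Λ (hS Λ hΛ).1 (hS Λ hΛ).2.1
      rw [h6]
      have h7 : (ND a b d j q₀.1 : ℤ) ≤ ((S.map fun Λ => ∑ g ∈ Λ, WD a b (Bj e j) g).sum : ℕ) := by
        exact_mod_cast h1
      linarith
    have h8 : (gM (sy q₀) S : ℤ) ≤ 0 := by
      refine hmain.trans ?_
      exact max_le le_rfl h5
    have h9 : gM (sy q₀) S = 0 := by omega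
    exact h9
  · -- window or fall
    intro q s hs i hi t ht hlt
    by_cases hall : ∀ i' < (sy q).size t, SpanM (sy q) (s + Multiset.replicate i top' +
        Multiset.replicate i' top')
    · left
      refine gM_window (sy q) _ t top' ?_ hall hlt
      intro x hx
      rw [Multiset.mem_add] at hx
      rcases hx with hx | hx
      · exact hdom q x (Multiset.mem_of_le hs hx)
      · rw [Multiset.eq_of_mem_replicate hx]
        exact fun p => le_rfl
    · right
      push Not at hall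
      obtain ⟨i', hi', hns⟩ := hall
      refine ⟨i', hi', ?_⟩
      unfold SpanM at hns
      push Not at hns
      obtain ⟨κ, hκ, m, hm, hnsp⟩ := hns
      have hadd : s + Multiset.replicate i top' + Multiset.replicate i' top' =
          s + Multiset.replicate (i + i') top' := by
        rw [add_assoc, ← Multiset.replicate_add]
      rw [hadd] at hm
      rcases span_orb ha hb ho hj e q.1 q.2.1 q.2.2.2.2 q.2.2.1
        (fun k hk => (mem_Bj.1 (q.2.2.2.1 hk)).2) m with h5 | ⟨k, hk, hk0, hLo, hle⟩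
      · exact absurd h5 hnsp
      · let q' : Q := ⟨del e q.1 k, Lo_del q.2.1 q.2.2.2.2 hk hLo, zero_mem_del q.2.2.1 hk0,
          (Finset.filter_subset _ q.1).trans q.2.2.2.1, Inv_del q.2.2.2.2 k⟩
        refine ⟨q', rkD_del hk, ?_, ?_⟩
        · show gM (sy q) _ ≤ gM (sy q') _
          have h6 := gd_eq_gM (sy q) m
          have h7 := gd_eq_gM (sy q') m
          rw [hm] at h6 h7
          rw [← h6, ← h7]
          exact hle
        · refine hvir q k hk hk0 q' rfl s hs (i + i') ?_
          have h6 : (sy q).size t ≤ ell (a + b) M := by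
            rcases ht with ht | ht
            · exact hsM' q t ht
            · rw [ht]
              exact hsM q
          obtain ⟨h7, h8⟩ := hrk q
          have h9 : (R - rkD e q.1) * ell (a + b) M + ell (a + b) M ≤ R * ell (a + b) M := by
            calc (R - rkD e q.1) * ell (a + b) M + ell (a + b) M =
                (R - rkD e q.1 + 1) * ell (a + b) M := by ring
              _ ≤ R * ell (a + b) M := Nat.mul_le_mul_right _ (by omega)
          have h10 : i ≤ (R - rkD e q.1) * ell (a + b) M := hi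
          omega
  · -- simple points
    intro q s t ht hcl hne
    show gM (sy q) (t ::ₘ s) + (sy q).size t ≤ gM (sy q) s
    have h5 := hscl q t
    have h6 : (sy q).size t ≤ 1 := by
      refine h5.trans ?_
      rcases Nat.eq_zero_or_pos (cl t) with h | h
      · rw [h]
        unfold ell
        have : a + b ≠ 0 := by omega
        rw [Nat.choose_eq_zero_of_lt (by omega)]
        omega
      · have h7 : cl t = 1 := by omega
        rw [h7, ell_one]
    rcases Nat.eq_zero_or_pos ((sy q).size t) with h7 | h7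
    · rw [h7, Nat.add_zero]
      exact gM_cons_le (sy q) s t
    · have h8 : (sy q).size t = 1 := by omega
      rw [h8]
      refine gM_drop (sy q) s t (fun f hf => drop_A _ t ?_ f hf) hne
      -- `t` is not empty
      have hne' : t.Nonempty := by
        rw [nonempty_iff_ne_empty]
        intro h9
        rw [h9] at h7
        have h10 := hscl q ∅
        have h11 : cl (∅ : Finset (ℕ × ℕ)) = 0 := rfl
        rw [h11] at h10
        have h12 : ell (a + b) 0 = 0 := by
          unfold ell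
          exact Nat.choose_eq_zero_of_lt (by omega)
        omega
      obtain ⟨g, hg⟩ := hne'
      exact (hS t ht).1 g hg (0, 0) (Nat.zero_le _) (Nat.zero_le _)
  · -- the lower bound
    intro q t ht
    show ∑ g ∈ t, wk a b (0 : Fin K → ℕ) g ≤ (sy q).size t
    rw [hsize q t (hS t ht).1 (hS t ht).2.1]
    refine sum_le_sum fun g _ => ?_
    exact single_le_sum (f := fun k => wk a b k g) (fun _ _ => Nat.zero_le _) q.2.2.1
  · intro c hc hcμ
    exact Lev_ell hc (by omega)
  · exact ell_mono _ hμM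

end Pool.Agent.LU
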